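import Mathlib

/-! Structured programs over bit stacks, with a cost semantics. -/

namespace Pool.Agent.Helper52.Poly

/-- Programs over stacks of bits indexed by `ℕ`. -/
inductive Prog : Type
  | skip : Prog
  | push : ℕ → Bool → Prog
  | seq : Prog → Prog → Prog
  | pop : ℕ → Prog → Prog → Prog → Prog
  | loop : ℕ → Prog → Prog → Prog

/-- All stacks used by the program have index less than the bound. -/
def Prog.bd : Prog → ℕ
  | .skip => 0
  | .push r _ => r + 1
  | .seq p q => max p.bd q.bd
  | .pop r p q s => max (r + 1) (max p.bd (max q.bd s.bd))
  | .loop r p q => max (r + 1) (max p.bd q.bd)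

/-- stores -/
abbrev Store := ℕ → List Bool

open Function in
/-- `Run p s s' c`: started in the store `s` the program terminates in the store `s'` after `c`
steps. -/
inductive Run : Prog → Store → Store → ℕ → Prop
  | skip (s) : Run .skip s s 1
  | push (s r b) : Run (.push r b) s (update s r (b :: s r)) 1
  | seq {p q s s' s'' c c'} : Run p s s' c → Run q s' s'' c' → Run (.seq p q) s s'' (c + c' + 1)
  | popNil {r p q q' s s' c} : s r = [] → Run p s s' c → Run (.pop r p q q') s s' (c + 1)
  | popF {r p q q' s s' c l} : s r = false :: l → Run q (update s r l) s' c →
      Run (.pop r p q q') s s' (c + 1)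
  | popT {r p q q' s s' c l} : s r = true :: l → Run q' (update s r l) s' c →
      Run (.pop r p q q') s s' (c + 1)
  | loopNil {r q q' s} : s r = [] → Run (.loop r q q') s s 1
  | loopF {r q q' s s' s'' c c' l} : s r = false :: l → Run q (update s r l) s' c →
      Run (.loop r q q') s' s'' c' → Run (.loop r q q') s s'' (c + c' + 1)
  | loopT {r q q' s s' s'' c c' l} : s r = true :: l → Run q' (update s r l) s' c →
      Run (.loop r q q') s' s'' c' → Run (.loop r q q') s s'' (c + c' + 1)

/-- A program makes every stack grow by at most its cost. -/
theorem Run.length_le {p s s' c} (h : Run p s s' c) (i : ℕ) :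
    (s' i).length ≤ (s i).length + c := by
  induction h with
  | skip s => omega
  | push s r b =>
    by_cases hi : i = r
    · subst hi; simp
    · simp [Function.update_of_ne hi]
  | seq _ _ ih1 ih2 => omega
  | popNil _ _ ih => omega
  | @popF r p q q' s s' c l h1 _ ih =>
    by_cases hi : i = r
    · subst hi; simp [h1] at ih ⊢; omega
    · rw [Function.update_of_ne hi] at ih; omega
  | @popT r p q q' s s' c l h1 _ ih =>
    by_cases hi : i = r
    · subst hi; simp [h1] at ih ⊢; omega
    · rw [Function.update_of_ne hi] at ih; omega
  | loopNil _ => omega
  | @loopF r q q' s s' s'' c c' l h1 _ _ ih1 ih2 =>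
    by_cases hi : i = r
    · subst hi; simp [h1] at ih1 ⊢; omega
    · rw [Function.update_of_ne hi] at ih1; omega
  | @loopT r q q' s s' s'' c c' l h1 _ _ ih1 ih2 =>
    by_cases hi : i = r
    · subst hi; simp [h1] at ih1 ⊢; omega
    · rw [Function.update_of_ne hi] at ih1; omega

theorem Run.cast {p s s' t' c c'} (h : Run p s s' c) (hs : s' = t') (hc : c = c') :
    Run p s t' c' := by subst hs; subst hc; exact h

/-! ### Basic programs -/

/-- move stack `a` onto stack `b` (reversing) -/
def mv (a b : ℕ) : Prog := .loop a (.push b false) (.push b true)

theorem run_mv {a b : ℕ} (hab : a ≠ b) : ∀ (l : List Bool) (s : Store), s a = l →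
    Run (mv a b) s (Function.update (Function.update s a []) b (l.reverse ++ s b))
      (2 * l.length + 1) := by
  intro l
  induction l with
  | nil =>
    intro s hs
    have : Function.update (Function.update s a []) b (([] : List Bool).reverse ++ s b) = s := by
      funext i
      by_cases hb : i = b
      · subst hb; simp
      · rw [Function.update_of_ne hb]
        by_cases ha : i = a
        · subst ha; simp [hs]
        · rw [Function.update_of_ne ha]
    rw [this]
    exact Run.loopNil hs
  | cons x l ih =>
    intro s hs
    set s1 := Function.update s a l with hs1
    set s2 := Function.update s1 b (x :: s1 b) with hs2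
    have h2a : s2 a = l := by rw [hs2, Function.update_of_ne hab, hs1, Function.update_self]
    have h1b : s1 b = s b := by rw [hs1, Function.update_of_ne hab.symm]
    have key := ih s2 h2a
    have hfin : Function.update (Function.update s2 a []) b (l.reverse ++ s2 b) =
        Function.update (Function.update s a []) b ((x :: l).reverse ++ s b) := by
      funext i
      by_cases hb : i = b
      · subst hb
        simp [hs2, h1b]
      · rw [Function.update_of_ne hb, Function.update_of_ne hb]
        by_cases ha : i = a
        · subst ha; simp
        · rw [Function.update_of_ne ha, Function.update_of_ne ha, hs2, Function.update_of_ne hb,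
            hs1, Function.update_of_ne ha]
    rw [hfin] at key
    have hc : 1 + (2 * l.length + 1) + 1 = 2 * (x :: l).length + 1 := by simp; ring
    rw [← hc]
    cases x with
    | false => exact Run.loopF hs (Run.push _ _ _) key
    | true => exact Run.loopT hs (Run.push _ _ _) key

/-- move stack `a` onto both `b` and `c` (reversing) -/
def mv2 (a b c : ℕ) : Prog :=
  .loop a (.seq (.push b false) (.push c false)) (.seq (.push b true) (.push c true))

theorem run_mv2 {a b c : ℕ} (hab : a ≠ b) (hac : a ≠ c) (hbc : b ≠ c) :
    ∀ (l : List Bool) (s : Store), s a = l →
    Run (mv2 a b c) s (Function.update (Function.update (Function.update s a []) b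
      (l.reverse ++ s b)) c (l.reverse ++ s c)) (4 * l.length + 1) := by
  intro l
  induction l with
  | nil =>
    intro s hs
    have : Function.update (Function.update (Function.update s a []) b
      (([] : List Bool).reverse ++ s b)) c (([] : List Bool).reverse ++ s c) = s := by
      funext i
      by_cases hc : i = c
      · subst hc; simp
      · rw [Function.update_of_ne hc]
        by_cases hb : i = b
        · subst hb; simp
        · rw [Function.update_of_ne hb]
          by_cases ha : i = a
          · subst ha; simp [hs]
          · rw [Function.update_of_ne ha]
    rw [this]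
    exact Run.loopNil hs
  | cons x l ih =>
    intro s hs
    set s1 := Function.update s a l with hs1
    set s2 := Function.update s1 b (x :: s1 b) with hs2
    set s3 := Function.update s2 c (x :: s2 c) with hs3
    have h3a : s3 a = l := by
      rw [hs3, Function.update_of_ne hac, hs2, Function.update_of_ne hab, hs1, Function.update_self]
    have h3b : s3 b = x :: s b := by
      rw [hs3, Function.update_of_ne hbc, hs2, Function.update_self, hs1,
        Function.update_of_ne hab.symm]
    have h3c : s3 c = x :: s c := by
      rw [hs3, Function.update_self, hs2, Function.update_of_ne hbc.symm, hs1,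
        Function.update_of_ne hac.symm]
    have key := ih s3 h3a
    have hfin : Function.update (Function.update (Function.update s3 a []) b
        (l.reverse ++ s3 b)) c (l.reverse ++ s3 c) =
        Function.update (Function.update (Function.update s a []) b
        ((x :: l).reverse ++ s b)) c ((x :: l).reverse ++ s c) := by
      funext i
      by_cases hc : i = c
      · subst hc; simp [h3c]
      · rw [Function.update_of_ne hc, Function.update_of_ne hc]
        by_cases hb : i = b
        · subst hb; simp [h3b]
        · rw [Function.update_of_ne hb, Function.update_of_ne hb]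
          by_cases ha : i = a
          · subst ha; simp
          · rw [Function.update_of_ne ha, Function.update_of_ne ha, hs3, Function.update_of_ne hc,
              hs2, Function.update_of_ne hb, hs1, Function.update_of_ne ha]
    rw [hfin] at key
    have hc : (1 + 1 + 1) + (4 * l.length + 1) + 1 = 4 * (x :: l).length + 1 := by simp; ring
    rw [← hc]
    cases x with
    | false => exact Run.loopF hs (Run.seq (Run.push _ _ _) (Run.push _ _ _)) key
    | true => exact Run.loopT hs (Run.seq (Run.push _ _ _) (Run.push _ _ _)) key

/-- empty a stack -/
def clr (a : ℕ) : Prog := .loop a .skip .skip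

theorem run_clr {a : ℕ} : ∀ (l : List Bool) (s : Store), s a = l →
    Run (clr a) s (Function.update s a []) (2 * l.length + 1) := by
  intro l
  induction l with
  | nil =>
    intro s hs
    have : Function.update s a [] = s := by rw [← hs]; exact Function.update_eq_self a s
    rw [this]
    exact Run.loopNil hs
  | cons x l ih =>
    intro s hs
    have key := ih (Function.update s a l) (Function.update_self _ _ _)
    rw [Function.update_idem] at key
    have hc : 1 + (2 * l.length + 1) + 1 = 2 * (x :: l).length + 1 := by simp; ring
    rw [← hc]
    cases x with
    | false => exact Run.loopF hs (Run.skip _) key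
    | true => exact Run.loopT hs (Run.skip _) key

/-- push a list so that it ends up on top, in order -/
def pushes (a : ℕ) : List Bool → Prog
  | [] => .skip
  | x :: l => .seq (pushes a l) (.push a x)

theorem run_pushes {a : ℕ} (l : List Bool) (s : Store) :
    Run (pushes a l) s (Function.update s a (l ++ s a)) (2 * l.length + 1) := by
  induction l with
  | nil =>
    simp only [List.nil_append, Function.update_eq_self]
    exact Run.skip _
  | cons x l ih =>
    have h := Run.seq ih (Run.push (Function.update s a (l ++ s a)) a x)
    rw [Function.update_idem, Function.update_self] at h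
    have hc : (2 * l.length + 1) + 1 + 1 = 2 * (x :: l).length + 1 := by simp; ring
    rw [← hc]
    exact h

theorem bd_mv (a b : ℕ) : (mv a b).bd = max (a + 1) (b + 1) := by simp [mv, Prog.bd]
theorem bd_mv2 (a b c : ℕ) : (mv2 a b c).bd = max (a + 1) (max (b + 1) (c + 1)) := by
  simp [mv2, Prog.bd]
theorem bd_clr (a : ℕ) : (clr a).bd = a + 1 := by simp [clr, Prog.bd]
theorem bd_pushes (a : ℕ) (l : List Bool) : (pushes a l).bd ≤ a + 1 := by
  induction l with
  | nil => simp [pushes, Prog.bd]
  | cons x l ih => simp [pushes, Prog.bd, ih]

end Pool.Agent.Helper52.Poly
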