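import Mathlib

namespace Pool.Agent.Helper52.Poly

/-- Binary trees, the data on which the encodings are based. -/
inductive T : Type
  | leaf : T
  | node : T → T → T

/-- The bit string coding a binary tree (preorder: `0` for a leaf, `1` for an inner node). -/
def T.code : T → List Bool
  | .leaf => [false]
  | .node l r => true :: (l.code ++ r.code)

/-- Types with an encoding by binary trees. -/
class Enc (α : Type) where
  enc : α → T

export Enc (enc)

/-- The bit string coding an element. -/
def code {α : Type} [Enc α] (a : α) : List Bool := (enc a).code

instance : Enc T := ⟨id⟩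
instance : Enc Bool := ⟨fun b => cond b (.node .leaf .leaf) .leaf⟩

instance {α β : Type} [Enc α] [Enc β] : Enc (α × β) := ⟨fun x => .node (enc x.1) (enc x.2)⟩

/-- Lists are coded elementwise. -/
def encList {α : Type} [Enc α] : List α → T
  | [] => .leaf
  | a :: l => .node (enc a) (encList l)

instance {α : Type} [Enc α] : Enc (List α) := ⟨encList⟩

/-- Natural numbers are coded by the list of their binary digits. -/
instance : Enc ℕ := ⟨fun n => enc n.bits⟩

/-- Integers are coded by their sign and absolute value. -/
instance : Enc ℤ := ⟨fun z => enc (decide (z < 0), z.natAbs)⟩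

/-- the equations of `Helper52.Poly.T.code`, made here once -/
theorem eqn_T_code : True := by
  have h1 := @_root_.Pool.Agent.Helper52.Poly.T.code.eq_1
  have h2 := @_root_.Pool.Agent.Helper52.Poly.T.code.eq_2
  have h3 := @_root_.Pool.Agent.Helper52.Poly.T.code.eq_def
  trivial

end Pool.Agent.Helper52.Poly
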