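import Mathlib
import Pool.Agent.Helper52.Poly.Prog
import Pool.Agent.Helper52.Poly.TreeDefs

namespace Pool.Agent.Helper52.Poly

open Function

def splitBody (src dst ctr : ℕ) : Prog :=
  .pop src .skip (.push dst false) (.seq (.push dst true) (.seq (.push ctr true) (.push ctr true)))

def splitLoop (src dst ctr : ℕ) : Prog := .loop ctr (splitBody src dst ctr) (splitBody src dst ctr)

/-- move one coded tree from the top of `src` to `dst`, reversed -/
def split (src dst ctr : ℕ) : Prog := .seq (.push ctr true) (splitLoop src dst ctr)

theorem T.code_pos (l : T) : 1 ≤ l.code.length := by
  cases l <;> simp [T.code]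

theorem run_splitLoop {src dst ctr : ℕ} (h1 : src ≠ dst) (h2 : src ≠ ctr) (h3 : dst ≠ ctr) (l : T) :
    ∀ (s s' : Store) (rest c' : List Bool) (c : ℕ), s ctr = true :: c' → s src = l.code ++ rest →
      Run (splitLoop src dst ctr)
        (update (update (update s ctr c') src rest) dst (l.code.reverse ++ s dst)) s' c →
      ∃ k ≤ 7 * l.code.length, Run (splitLoop src dst ctr) s s' (c + k) := by
  induction l with
  | leaf =>
    intro s s' rest c' c hc hs hr
    refine ⟨3, by simp [T.code], ?_⟩
    have hb : Run (splitBody src dst ctr) (update s ctr c')
        (update (update (update s ctr c') src rest) dst (T.leaf.code.reverse ++ s dst)) 2 := by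
      refine Run.popF (l := rest) (c := 1) ?_ ?_
      · rw [update_of_ne h2, hs]; rfl
      · have := Run.push (update (update s ctr c') src rest) dst false
        rw [update_of_ne h1.symm, update_of_ne h3] at this
        exact this
    have := Run.loopT hc hb hr
    rw [show c + 3 = 2 + c + 1 by ring]
    exact this
  | node l r ihl ihr =>
    intro s s' rest c' c hc hs hr
    -- state after the body
    set s1 : Store := update (update (update s ctr (true :: true :: c')) src
      (l.code ++ (r.code ++ rest))) dst (true :: s dst) with hs1
    have hb : Run (splitBody src dst ctr) (update s ctr c') s1 6 := by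
      refine Run.popT (l := l.code ++ (r.code ++ rest)) (c := 5) ?_ ?_
      · rw [update_of_ne h2, hs]; simp [T.code]
      · have e1 := Run.push (update (update s ctr c') src (l.code ++ (r.code ++ rest))) dst true
        set t1 := update (update (update s ctr c') src (l.code ++ (r.code ++ rest))) dst
          (true :: (update (update s ctr c') src (l.code ++ (r.code ++ rest))) dst) with ht1
        have e2 := Run.push t1 ctr true
        set t2 := update t1 ctr (true :: t1 ctr) with ht2
        have e3 := Run.push t2 ctr true
        have e4 := Run.seq e1 (Run.seq e2 e3)
        have : update t2 ctr (true :: t2 ctr) = s1 := by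
          funext i
          by_cases hic : i = ctr
          · subst hic
            rw [update_self, ht2, update_self, ht1, update_of_ne h3.symm, update_of_ne h2.symm,
              update_self, hs1, update_of_ne h3.symm, update_of_ne h2.symm, update_self]
          · rw [update_of_ne hic, ht2, update_of_ne hic, ht1, hs1]
            by_cases hid : i = dst
            · subst hid
              rw [update_self, update_self, update_of_ne h1.symm, update_of_ne h3]
            · rw [update_of_ne hid, update_of_ne hid]
              by_cases his : i = src
              · subst his; rw [update_self, update_self]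
              · rw [update_of_ne his, update_of_ne his, update_of_ne hic, update_of_ne hic]
        rw [this] at e4
        exact e4
    have s1ctr : s1 ctr = true :: true :: c' := by
      rw [hs1, update_of_ne h3.symm, update_of_ne h2.symm, update_self]
    have s1src : s1 src = l.code ++ (r.code ++ rest) := by
      rw [hs1, update_of_ne h1, update_self]
    have s1dst : s1 dst = true :: s dst := by rw [hs1, update_self]
    set s2 : Store := update (update (update s1 ctr (true :: c')) src (r.code ++ rest)) dst
      (l.code.reverse ++ s1 dst) with hs2
    have s2ctr : s2 ctr = true :: c' := by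
      rw [hs2, update_of_ne h3.symm, update_of_ne h2.symm, update_self]
    have s2src : s2 src = r.code ++ rest := by rw [hs2, update_of_ne h1, update_self]
    have s2dst : s2 dst = l.code.reverse ++ (true :: s dst) := by rw [hs2, update_self, s1dst]
    have hfin : update (update (update s2 ctr c') src rest) dst (r.code.reverse ++ s2 dst) =
        update (update (update s ctr c') src rest) dst ((T.node l r).code.reverse ++ s dst) := by
      funext i
      by_cases hid : i = dst
      · subst hid
        rw [update_self, update_self, s2dst]
        simp [T.code]
      · rw [update_of_ne hid, update_of_ne hid]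
        by_cases his : i = src
        · subst his; rw [update_self, update_self]
        · rw [update_of_ne his, update_of_ne his]
          by_cases hic : i = ctr
          · subst hic; rw [update_self, update_self]
          · rw [update_of_ne hic, update_of_ne hic, hs2, update_of_ne hid, update_of_ne his,
              update_of_ne hic, hs1, update_of_ne hid, update_of_ne his, update_of_ne hic]
    rw [← hfin] at hr
    obtain ⟨kr, hkr, hrr⟩ := ihr s2 s' rest c' c s2ctr s2src hr
    obtain ⟨kl, hkl, hrl⟩ := ihl s1 s' (r.code ++ rest) (true :: c') (c + kr) s1ctr s1src hrr
    refine ⟨kr + kl + 7, ?_, ?_⟩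
    · simp only [T.code, List.length_cons, List.length_append]; omega
    · have := Run.loopT hc hb hrl
      rw [show c + (kr + kl + 7) = 6 + (c + kr + kl) + 1 by ring]
      exact this

theorem run_split {src dst ctr : ℕ} (h1 : src ≠ dst) (h2 : src ≠ ctr) (h3 : dst ≠ ctr) (l : T)
    (s : Store) (rest : List Bool) (hc : s ctr = []) (hs : s src = l.code ++ rest) :
    ∃ k ≤ 7 * l.code.length + 3, Run (split src dst ctr) s
      (update (update s src rest) dst (l.code.reverse ++ s dst)) k := by
  set s0 := update s ctr (true :: s ctr) with hs0
  have e0 := Run.push s ctr true
  have c0 : s0 ctr = true :: [] := by rw [hs0, update_self, hc]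
  have c1 : s0 src = l.code ++ rest := by rw [hs0, update_of_ne h2, hs]
  set s' := update (update s src rest) dst (l.code.reverse ++ s dst) with hs'
  have hfin : update (update (update s0 ctr []) src rest) dst (l.code.reverse ++ s0 dst) = s' := by
    have hz : update s0 ctr [] = s := by
      rw [hs0, update_idem, ← hc, update_eq_self]
    have hd : s0 dst = s dst := by rw [hs0, update_of_ne h3]
    rw [hz, hd, hs']
  have hend : Run (splitLoop src dst ctr)
      (update (update (update s0 ctr []) src rest) dst (l.code.reverse ++ s0 dst)) s' 1 := by
    rw [hfin]
    refine Run.loopNil ?_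
    rw [hs', update_of_ne h3.symm, update_of_ne h2.symm, hc]
  obtain ⟨k, hk, hr⟩ := run_splitLoop h1 h2 h3 l s0 s' rest [] 1 c0 c1 hend
  exact ⟨1 + (1 + k) + 1, by omega, Run.seq e0 hr⟩

theorem bd_split (src dst ctr : ℕ) :
    (split src dst ctr).bd = max (src + 1) (max (dst + 1) (ctr + 1)) := by
  simp only [split, splitLoop, splitBody, Prog.bd]
  omega

end Pool.Agent.Helper52.Poly
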