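import Mathlib
import Pool.Agent.Helper52.Poly.Split

namespace Pool.Agent.Helper52.Poly

open Function

theorem pmono (P : Polynomial ℕ) {a b : ℕ} (h : a ≤ b) : P.eval a ≤ P.eval b := by
  induction P using Polynomial.induction_on' with
  | add p q hp hq => rw [Polynomial.eval_add, Polynomial.eval_add]; omega
  | monomial n c =>
    rw [Polynomial.eval_monomial, Polynomial.eval_monomial]
    exact Nat.mul_le_mul_left _ (Nat.pow_le_pow_left h n)

variable {α β γ δ : Type} [Enc α] [Enc β] [Enc γ] [Enc δ]

/-- length of the code -/
def sz (a : α) : ℕ := (code a).length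

/-- The program `p` computes `f` on stack `0`, using stacks below `n`, in time `P`. -/
def Comp (n : ℕ) (p : Prog) (f : α → β) (P : Polynomial ℕ) : Prop :=
  p.bd ≤ n ∧ 1 ≤ n ∧ ∀ (a : α) (s : Store), s 0 = code a → (∀ i, 0 < i → i < n → s i = []) →
    ∃ c ≤ P.eval (sz a), Run p s (update s 0 (code (f a))) c

/-- Functions computed by a program in polynomial time. -/
def PF (f : α → β) : Prop := ∃ n p P, Comp n p f P

theorem Comp.size_le {n p} {f : α → β} {P} (h : Comp n p f P) (a : α) :
    sz (f a) ≤ sz a + P.eval (sz a) := by
  obtain ⟨_, hn, h⟩ := h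
  obtain ⟨c, hc, hr⟩ := h a (update (fun _ => []) 0 (code a)) (update_self _ _ _)
    (fun i hi _ => by rw [update_of_ne (by omega)])
  have := hr.length_le 0
  rw [update_self, update_self] at this
  unfold sz at *
  omega

theorem PF.size_le {f : α → β} (h : PF f) : ∃ Q : Polynomial ℕ, ∀ a, sz (f a) ≤ Q.eval (sz a) := by
  obtain ⟨n, p, P, hc⟩ := h
  refine ⟨Polynomial.X + P, fun a => ?_⟩
  rw [Polynomial.eval_add, Polynomial.eval_X]
  exact hc.size_le a

/-- change of codomain -/
theorem PF.congr {f : α → β} (h : PF f) {g : α → γ} (he : ∀ a, enc (g a) = enc (f a)) : PF g := by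
  obtain ⟨n, p, P, h1, h2, h3⟩ := h
  refine ⟨n, p, P, h1, h2, fun a s hs hi => ?_⟩
  have : code (g a) = code (f a) := by unfold code; rw [he]
  rw [this]
  exact h3 a s hs hi

/-- change of domain -/
theorem PF.dom {g : β → γ} (h : PF g) (e : α → β) (he : ∀ a, enc (e a) = enc a) :
    PF (fun a => g (e a)) := by
  obtain ⟨n, p, P, h1, h2, h3⟩ := h
  refine ⟨n, p, P, h1, h2, fun a s hs hi => ?_⟩
  have hc : code (e a) = code a := by unfold code; rw [he]
  have := h3 (e a) s (by rw [hs, hc]) hi
  unfold sz at *
  rw [hc] at this
  exact this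

/-- lifting a function of trees -/
theorem PF.lift {t : T → T} (ht : PF t) {f : α → β} (h : ∀ a, enc (f a) = t (enc a)) : PF f := by
  have h1 : PF (fun a : α => t (enc a)) := ht.dom (fun a : α => enc a) (fun _ => rfl)
  exact h1.congr (fun a => h a)

theorem PF.id : PF (fun a : α => a) := by
  refine ⟨1, .skip, 1, by simp [Prog.bd], le_rfl, fun a s hs _ => ⟨1, by simp, ?_⟩⟩
  rw [← hs, update_eq_self]
  exact Run.skip s

theorem PF.comp {g : β → γ} {f : α → β} (hg : PF g) (hf : PF f) : PF (fun a => g (f a)) := by
  obtain ⟨n, p, P, hc1⟩ := hf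
  have hsz := hc1.size_le
  obtain ⟨h1, h2, h3⟩ := hc1
  obtain ⟨m, q, Q, k1, k2, k3⟩ := hg
  refine ⟨max n m, .seq p q, P + Q.comp (Polynomial.X + P) + 1, ?_, ?_, fun a s hs hi => ?_⟩
  · simp only [Prog.bd]; omega
  · omega
  · obtain ⟨c, hc, hr⟩ := h3 a s hs (fun i h0 hn => hi i h0 (by omega))
    obtain ⟨c', hc', hr'⟩ := k3 (f a) (update s 0 (code (f a))) (update_self _ _ _)
      (fun i h0 hn => by rw [update_of_ne (by omega)]; exact hi i h0 (by omega))
    rw [update_idem] at hr'
    refine ⟨c + c' + 1, ?_, Run.seq hr hr'⟩
    simp only [Polynomial.eval_add, Polynomial.eval_comp, Polynomial.eval_X, Polynomial.eval_one]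
    have : Q.eval (sz (f a)) ≤ Q.eval (sz a + P.eval (sz a)) := pmono Q (hsz a)
    omega

theorem PF.const (b : β) : PF (fun _ : α => b) := by
  refine ⟨1, .seq (clr 0) (pushes 0 (code b)), 2 * Polynomial.X + Polynomial.C (2 * (code b).length + 3),
    ?_, le_rfl, fun a s hs _ => ?_⟩
  · have := bd_pushes 0 (code b)
    simp only [Prog.bd, bd_clr]; omega
  · have e1 := run_clr (code a) s hs
    have e2 := run_pushes (a := 0) (code b) (update s 0 [])
    rw [update_idem, update_self, List.append_nil] at e2
    refine ⟨_, ?_, Run.seq e1 e2⟩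
    simp only [Polynomial.eval_add, Polynomial.eval_mul, Polynomial.eval_X, Polynomial.eval_C,
      Polynomial.eval_ofNat, sz]
    omega

/-- left subtree -/
def T.left : T → T
  | .leaf => .leaf
  | .node l _ => l
/-- right subtree -/
def T.right : T → T
  | .leaf => .leaf
  | .node _ r => r

theorem PF.left : PF T.left := by
  refine ⟨3, .pop 0 .skip (.push 0 false) (.seq (split 0 1 2) (.seq (clr 0) (mv 1 0))),
    20 * Polynomial.X + 20, ?_, by norm_num, fun a s hs hi => ?_⟩
  · simp [Prog.bd, bd_split, bd_clr, bd_mv]
  · have s1 := hi 1 (by norm_num) (by norm_num)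
    have s2 := hi 2 (by norm_num) (by norm_num)
    cases a with
    | leaf =>
      refine ⟨2, by simp, ?_⟩
      have e := Run.push (update s 0 []) 0 false
      rw [update_idem, update_self] at e
      exact Run.popF (p := .skip) (by rw [hs]; rfl) e
    | node l r =>
      have hs' : s 0 = true :: (l.code ++ r.code) := hs
      obtain ⟨k, hk, e1⟩ := run_split (src := 0) (dst := 1) (ctr := 2) (by norm_num) (by norm_num)
        (by norm_num) l (update s 0 (l.code ++ r.code)) r.code
        (by rw [update_of_ne (by norm_num), s2]) (update_self _ _ _)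
      rw [update_idem, update_of_ne (by norm_num : (1:ℕ) ≠ 0), s1, List.append_nil] at e1
      have e2 := run_clr (a := 0) r.code (update (update s 0 r.code) 1 l.code.reverse)
        (by rw [update_of_ne (by norm_num), update_self])
      have e3 := run_mv (a := 1) (b := 0) (by norm_num) l.code.reverse
        (update (update (update s 0 r.code) 1 l.code.reverse) 0 [])
        (by rw [update_of_ne (by norm_num), update_self])
      have hfin : update (update (update (update (update s 0 r.code) 1 l.code.reverse) 0 []) 1 [])
          0 (l.code.reverse.reverse ++ (update (update (update s 0 r.code) 1 l.code.reverse) 0 [])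
            0) = update s 0 (code (T.node l r).left) := by
        funext i
        simp only [update_apply, T.left, code, enc, _root_.id]
        split_ifs <;> simp_all
      rw [hfin] at e3
      refine ⟨_, ?_, Run.popT hs' (Run.seq e1 (Run.seq e2 e3))⟩
      simp only [Polynomial.eval_add, Polynomial.eval_mul, Polynomial.eval_X,
        Polynomial.eval_ofNat, sz, code, enc, _root_.id, T.code, List.length_cons,
        List.length_append, List.length_reverse]
      omega

theorem PF.right : PF T.right := by
  refine ⟨3, .pop 0 .skip (.push 0 false) (.seq (split 0 1 2) (clr 1)),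
    20 * Polynomial.X + 20, ?_, by norm_num, fun a s hs hi => ?_⟩
  · simp [Prog.bd, bd_split, bd_clr]
  · have s1 := hi 1 (by norm_num) (by norm_num)
    have s2 := hi 2 (by norm_num) (by norm_num)
    cases a with
    | leaf =>
      refine ⟨2, by simp, ?_⟩
      have e := Run.push (update s 0 []) 0 false
      rw [update_idem, update_self] at e
      exact Run.popF (p := .skip) (by rw [hs]; rfl) e
    | node l r =>
      have hs' : s 0 = true :: (l.code ++ r.code) := hs
      obtain ⟨k, hk, e1⟩ := run_split (src := 0) (dst := 1) (ctr := 2) (by norm_num) (by norm_num)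
        (by norm_num) l (update s 0 (l.code ++ r.code)) r.code
        (by rw [update_of_ne (by norm_num), s2]) (update_self _ _ _)
      rw [update_idem, update_of_ne (by norm_num : (1:ℕ) ≠ 0), s1, List.append_nil] at e1
      have e2 := run_clr (a := 1) l.code.reverse (update (update s 0 r.code) 1 l.code.reverse)
        (update_self _ _ _)
      have hfin : update (update (update s 0 r.code) 1 l.code.reverse) 1 [] =
          update s 0 (code (T.node l r).right) := by
        funext i
        simp only [update_apply, T.right, code, enc, _root_.id]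
        split_ifs <;> simp_all
      rw [hfin] at e2
      refine ⟨_, ?_, Run.popT hs' (Run.seq e1 e2)⟩
      simp only [Polynomial.eval_add, Polynomial.eval_mul, Polynomial.eval_X,
        Polynomial.eval_ofNat, sz, code, enc, _root_.id, T.code, List.length_cons,
        List.length_append, List.length_reverse]
      omega

end Pool.Agent.Helper52.Poly
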