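import Mathlib
import Pool.Agent.Helper52.Poly.PF

namespace Pool.Agent.Helper52.Poly

open Function

variable {α β γ δ : Type} [Enc α] [Enc β] [Enc γ] [Enc δ]

/-- copy stack `0` to stack `N`, using `N + 1` -/
def copy (N : ℕ) : Prog := .seq (mv 0 (N + 1)) (mv2 (N + 1) 0 N)

theorem run_copy {N : ℕ} (hN : 1 ≤ N) (s : Store) (h1 : s N = []) (h2 : s (N + 1) = []) :
    Run (copy N) s (update s N (s 0)) (6 * (s 0).length + 3) := by
  have hfin : update (update (update (update (update s 0 []) (N + 1) (s 0).reverse) (N + 1) []) 0
      ((s 0).reverse.reverse ++ (update (update s 0 []) (N + 1) (s 0).reverse) 0)) N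
      ((s 0).reverse.reverse ++ (update (update s 0 []) (N + 1) (s 0).reverse) N) =
      update s N (s 0) := by
    funext i
    have n1 : N ≠ N + 1 := by omega
    have n2 : N ≠ 0 := by omega
    have n3 : (0 : ℕ) ≠ N + 1 := by omega
    by_cases hi : i = N
    · rw [hi, update_self, update_self, update_of_ne n1, update_of_ne n2, h1, List.append_nil,
        List.reverse_reverse]
    · rw [update_of_ne hi, update_of_ne hi]
      by_cases hi0 : i = 0
      · rw [hi0, update_self, update_of_ne n3, update_self, List.append_nil, List.reverse_reverse]
      · rw [update_of_ne hi0]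
        by_cases hi1 : i = N + 1
        · rw [hi1, update_self, h2]
        · rw [update_of_ne hi1, update_of_ne hi1, update_of_ne hi0]
  have e1 := run_mv (a := 0) (b := N + 1) (by omega) (s 0) s rfl
  rw [h2, List.append_nil] at e1
  have e2 := run_mv2 (a := N + 1) (b := 0) (c := N) (by omega) (by omega) (by omega)
    (s 0).reverse (update (update s 0 []) (N + 1) (s 0).reverse) (update_self _ _ _)
  have e := Run.seq e1 e2
  rw [List.length_reverse] at e
  exact Run.cast e hfin (by ring)

theorem bd_copy (N : ℕ) : (copy N).bd = N + 2 := by
  simp only [copy, Prog.bd, bd_mv, bd_mv2]; omega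

/-- restore stack `0` (assumed empty) from stack `N`, using `N + 1` -/
def restore (N : ℕ) : Prog := .seq (mv N (N + 1)) (mv (N + 1) 0)

theorem run_restore {N : ℕ} (hN : 1 ≤ N) (s : Store) (h1 : s 0 = []) (h2 : s (N + 1) = []) :
    Run (restore N) s (update (update s N []) 0 (s N)) (4 * (s N).length + 3) := by
  have hfin : update (update (update (update s N []) (N + 1) (s N).reverse) (N + 1) []) 0
      ((s N).reverse.reverse ++ (update (update s N []) (N + 1) (s N).reverse) 0) =
      update (update s N []) 0 (s N) := by
    funext i
    simp only [update_apply]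
    split_ifs <;> simp_all
  have e1 := run_mv (a := N) (b := N + 1) (by omega) (s N) s rfl
  rw [h2, List.append_nil] at e1
  have e2 := run_mv (a := N + 1) (b := 0) (by omega) (s N).reverse
    (update (update s N []) (N + 1) (s N).reverse) (update_self _ _ _)
  have e := Run.seq e1 e2
  rw [List.length_reverse] at e
  exact Run.cast e hfin (by ring)

theorem bd_restore (N : ℕ) : (restore N).bd = N + 2 := by
  simp only [restore, Prog.bd, bd_mv]; omega

theorem PF.pair {f : α → β} {g : α → γ} (hf : PF f) (hg : PF g) : PF (fun a => (f a, g a)) := by
  obtain ⟨n, p, P, hc1⟩ := hf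
  have hszf := hc1.size_le
  obtain ⟨n1, n2, n3⟩ := hc1
  obtain ⟨m, q, Q, hc2⟩ := hg
  obtain ⟨m1, m2, m3⟩ := hc2
  set N := max n m with hN
  have hN1 : 1 ≤ N := by omega
  refine ⟨N + 3, .seq (copy N) (.seq p (.seq (mv 0 (N + 2)) (.seq (restore N) (.seq q
    (.seq (mv (N + 2) 0) (.push 0 true)))))),
    20 * Polynomial.X + 5 * P + Q + 30, ?_, by omega, fun a s hs hi => ?_⟩
  · simp only [Prog.bd, bd_copy, bd_restore, bd_mv]; omega
  have hsN := hi N (by omega) (by omega)
  have hsN1 := hi (N + 1) (by omega) (by omega)
  have hsN2 := hi (N + 2) (by omega) (by omega)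
  -- copy
  have e1 := run_copy hN1 s hsN hsN1
  rw [hs] at e1
  -- first function
  obtain ⟨c1, hc1, e2⟩ := n3 a (update s N (code a)) (by rw [update_of_ne (by omega), hs])
    (fun i h0 hn => by rw [update_of_ne (by omega)]; exact hi i h0 (by omega))
  -- save
  have e3 := run_mv (a := 0) (b := N + 2) (by omega) (code (f a))
    (update (update s N (code a)) 0 (code (f a))) (update_self _ _ _)
  have k1 : update (update (update (update s N (code a)) 0 (code (f a))) 0 []) (N + 2)
      ((code (f a)).reverse ++ (update (update s N (code a)) 0 (code (f a))) (N + 2)) =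
      update (update (update s N (code a)) 0 []) (N + 2) (code (f a)).reverse := by
    funext i
    simp only [update_apply]
    split_ifs <;> simp_all
  rw [k1] at e3
  -- restore
  have e4 := run_restore hN1 (update (update (update s N (code a)) 0 []) (N + 2)
    (code (f a)).reverse) (by rw [update_of_ne (by omega), update_self])
    (by rw [update_of_ne (by omega), update_of_ne (by omega), update_of_ne (by omega), hsN1])
  have k2 : (update (update (update s N (code a)) 0 []) (N + 2) (code (f a)).reverse) N =
      code a := by
    rw [update_of_ne (by omega), update_of_ne (by omega), update_self]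
  rw [k2] at e4
  have k3 : update (update (update (update (update s N (code a)) 0 []) (N + 2)
      (code (f a)).reverse) N []) 0 (code a) = update s (N + 2) (code (f a)).reverse := by
    funext i
    simp only [update_apply]
    split_ifs <;> simp_all
  rw [k3] at e4
  -- second function
  obtain ⟨c2, hc2, e5⟩ := m3 a (update s (N + 2) (code (f a)).reverse)
    (by rw [update_of_ne (by omega), hs])
    (fun i h0 hn => by rw [update_of_ne (by omega)]; exact hi i h0 (by omega))
  -- final
  have e6 := run_mv (a := N + 2) (b := 0) (by omega) (code (f a)).reverse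
    (update (update s (N + 2) (code (f a)).reverse) 0 (code (g a)))
    (by rw [update_of_ne (by omega), update_self])
  have e7 := Run.push (update (update (update (update s (N + 2) (code (f a)).reverse) 0
    (code (g a))) (N + 2) []) 0 ((code (f a)).reverse.reverse ++
      (update (update s (N + 2) (code (f a)).reverse) 0 (code (g a))) 0)) 0 true
  have e := Run.seq e1 (Run.seq e2 (Run.seq e3 (Run.seq e4 (Run.seq e5 (Run.seq e6 e7)))))
  have hfin : update (update (update (update (update s (N + 2) (code (f a)).reverse) 0
      (code (g a))) (N + 2) []) 0 ((code (f a)).reverse.reverse ++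
      (update (update s (N + 2) (code (f a)).reverse) 0 (code (g a))) 0)) 0
      (true :: (update (update (update (update s (N + 2) (code (f a)).reverse) 0
      (code (g a))) (N + 2) []) 0 ((code (f a)).reverse.reverse ++
      (update (update s (N + 2) (code (f a)).reverse) 0 (code (g a))) 0)) 0) =
      update s 0 (code (f a, g a)) := by
    funext i
    simp only [update_apply, code, enc, T.code]
    split_ifs <;> simp_all
  rw [hfin] at e
  refine ⟨_, ?_, e⟩
  have h8 := hszf a
  simp only [Polynomial.eval_add, Polynomial.eval_mul, Polynomial.eval_X,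
    Polynomial.eval_ofNat, List.length_reverse]
  unfold sz at *
  omega

/-- branching on whether the value of a tree-valued function is a leaf -/
theorem PF.caseLeaf {b : α → T} {f g : α → β} (hb : PF b) (hf : PF f) (hg : PF g) :
    PF (fun a => match b a with
      | .leaf => f a
      | .node _ _ => g a) := by
  obtain ⟨n0, p0, P0, hc0⟩ := hb
  have hszb := hc0.size_le
  obtain ⟨l1, l2, l3⟩ := hc0
  obtain ⟨n, p, P, n1, n2, n3⟩ := hf
  obtain ⟨m, q, Q, m1, m2, m3⟩ := hg
  set N := max n0 (max n m) with hN
  have hN1 : 1 ≤ N := by omega
  refine ⟨N + 2, .seq (copy N) (.seq p0 (.pop 0 .skip (.seq (restore N) p)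
    (.seq (clr 0) (.seq (restore N) q)))),
    20 * Polynomial.X + 5 * P0 + P + Q + 30, ?_, by omega, fun a s hs hi => ?_⟩
  · simp only [Prog.bd, bd_copy, bd_restore, bd_clr]; omega
  have hsN := hi N (by omega) (by omega)
  have hsN1 := hi (N + 1) (by omega) (by omega)
  have e1 := run_copy hN1 s hsN hsN1
  rw [hs] at e1
  obtain ⟨c1, hc1, e2⟩ := l3 a (update s N (code a)) (by rw [update_of_ne (by omega), hs])
    (fun i h0 hn => by rw [update_of_ne (by omega)]; exact hi i h0 (by omega))
  have h8 := hszb a
  cases hba : b a with
  | leaf =>
    have hcode : (update (update s N (code a)) 0 (code (b a))) 0 = false :: [] := by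
      rw [update_self, hba]; rfl
    have e4 := run_restore hN1 (update (update (update s N (code a)) 0 (code (b a))) 0 [])
      (update_self _ _ _) (by
        rw [update_of_ne (by omega), update_of_ne (by omega), update_of_ne (by omega), hsN1])
    have k2 : (update (update (update s N (code a)) 0 (code (b a))) 0 []) N = code a := by
      rw [update_of_ne (by omega), update_of_ne (by omega), update_self]
    rw [k2] at e4
    have k3 : update (update (update (update (update s N (code a)) 0 (code (b a))) 0 []) N []) 0
        (code a) = s := by
      funext i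
      simp only [update_apply]
      split_ifs <;> simp_all
    rw [k3] at e4
    obtain ⟨c2, hc2, e5⟩ := n3 a s hs (fun i h0 hn => hi i h0 (by omega))
    simp only [hba]
    refine ⟨_, ?_, Run.seq e1 (Run.seq e2 (Run.popF hcode (Run.seq e4 e5)))⟩
    simp only [Polynomial.eval_add, Polynomial.eval_mul, Polynomial.eval_X,
      Polynomial.eval_ofNat]
    unfold sz at *
    omega
  | node l r =>
    have hcode : (update (update s N (code a)) 0 (code (b a))) 0 = true :: (l.code ++ r.code) := by
      rw [update_self, hba]; rfl
    have e3 := run_clr (a := 0) (l.code ++ r.code)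
      (update (update (update s N (code a)) 0 (code (b a))) 0 (l.code ++ r.code))
      (update_self _ _ _)
    have e4 := run_restore hN1 (update (update (update (update s N (code a)) 0 (code (b a))) 0
      (l.code ++ r.code)) 0 [])
      (update_self _ _ _) (by
        rw [update_of_ne (by omega), update_of_ne (by omega), update_of_ne (by omega),
          update_of_ne (by omega), hsN1])
    have k2 : (update (update (update (update s N (code a)) 0 (code (b a))) 0
        (l.code ++ r.code)) 0 []) N = code a := by
      rw [update_of_ne (by omega), update_of_ne (by omega), update_of_ne (by omega), update_self]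
    rw [k2] at e4
    have k3 : update (update (update (update (update (update s N (code a)) 0 (code (b a))) 0
        (l.code ++ r.code)) 0 []) N []) 0 (code a) = s := by
      funext i
      simp only [update_apply]
      split_ifs <;> simp_all
    rw [k3] at e4
    obtain ⟨c2, hc2, e5⟩ := m3 a s hs (fun i h0 hn => hi i h0 (by omega))
    have hlen : (code (b a)).length = (l.code ++ r.code).length + 1 := by rw [hba]; rfl
    simp only [hba]
    refine ⟨_, ?_, Run.seq e1 (Run.seq e2 (Run.popT hcode (Run.seq e3 (Run.seq e4 e5))))⟩
    simp only [Polynomial.eval_add, Polynomial.eval_mul, Polynomial.eval_X,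
      Polynomial.eval_ofNat]
    unfold sz at *
    omega

theorem PF.cond {b : α → Bool} {f g : α → β} (hb : PF b) (hf : PF f) (hg : PF g) :
    PF (fun a => bif b a then f a else g a) := by
  have h1 : PF (fun a => (enc (b a) : T)) := hb.congr (fun a => rfl)
  refine (PF.caseLeaf h1 hg hf).congr (fun a => ?_)
  cases b a <;> rfl

theorem PF.ite {b : α → Prop} [DecidablePred b] {f g : α → β} (hb : PF (fun a => decide (b a)))
    (hf : PF f) (hg : PF g) : PF (fun a => if b a then f a else g a) := by
  refine (PF.cond hb hf hg).congr (fun a => ?_)
  by_cases h : b a <;> simp [h]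

theorem PF.fst : PF (Prod.fst : α × β → α) := PF.left.lift (fun _ => rfl)
theorem PF.snd : PF (Prod.snd : α × β → β) := PF.right.lift (fun _ => rfl)

theorem PF.fst' {f : α → β × γ} (h : PF f) : PF (fun a => (f a).1) := PF.fst.comp h
theorem PF.snd' {f : α → β × γ} (h : PF f) : PF (fun a => (f a).2) := PF.snd.comp h

theorem PF.node {f g : α → T} (hf : PF f) (hg : PF g) : PF (fun a => T.node (f a) (g a)) :=
  (PF.pair hf hg).congr (fun _ => rfl)

theorem PF.cons {f : α → β} {g : α → List β} (hf : PF f) (hg : PF g) :
    PF (fun a => f a :: g a) := (PF.pair hf hg).congr (fun _ => rfl)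

theorem PF.tail {f : α → List β} (hf : PF f) : PF (fun a => (f a).tail) := by
  refine (PF.right.comp (hf.congr (g := fun a => (enc (f a) : T)) (fun _ => rfl))).congr
    (fun a => ?_)
  cases f a <;> rfl

/-- case analysis on lists -/
theorem PF.listCase {l : α → List β} {f : α → γ} {g : (β × List β) × α → γ} (hl : PF l)
    (hf : PF f) (hg : PF g) :
    PF (fun a => match l a with
      | [] => f a
      | x :: xs => g ((x, xs), a)) := by
  obtain ⟨n, p, P, n1, n2, n3⟩ := hg
  -- package: run `caseLeaf` on trees, with the second branch fed by the pair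
  have hlT : PF (fun a => (enc (l a) : T)) := hl.congr (fun _ => rfl)
  -- direct construction
  obtain ⟨n0, p0, P0, hc0⟩ := PF.pair hlT (PF.id (α := α))
  have hsz0 := hc0.size_le
  obtain ⟨l1, l2, l3⟩ := hc0
  obtain ⟨m, q, Q, m1, m2, m3⟩ := hf
  set N := max n0 (max n m) with hN
  obtain ⟨n5, p5, P5, hc5⟩ := hlT
  have hsz5 := hc5.size_le
  obtain ⟨r1, r2, r3⟩ := hc5
  set M := max N n5 with hM
  have hM1 : 1 ≤ M := by omega
  refine ⟨M + 2, .seq (copy M) (.seq p5 (.pop 0 .skip (.seq (restore M) q)
    (.seq (clr 0) (.seq (restore M) (.seq p0 p))))),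
    20 * Polynomial.X + 5 * P5 + P0 + P.comp (Polynomial.X + P0) + Q + 40, ?_, by omega,
    fun a s hs hi => ?_⟩
  · simp only [Prog.bd, bd_copy, bd_restore, bd_clr]; omega
  have hsN := hi M (by omega) (by omega)
  have hsN1 := hi (M + 1) (by omega) (by omega)
  have e1 := run_copy hM1 s hsN hsN1
  rw [hs] at e1
  obtain ⟨c1, hc1, e2⟩ := r3 a (update s M (code a)) (by rw [update_of_ne (by omega), hs])
    (fun i h0 hn => by rw [update_of_ne (by omega)]; exact hi i h0 (by omega))
  have h8 := hsz5 a
  have hcc : code (enc (l a) : T) = code (l a) := rfl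
  rw [hcc] at e2
  have h8' : sz (l a) ≤ sz a + P5.eval (sz a) := h8
  cases hba : l a with
  | nil =>
    have hcode : (update (update s M (code a)) 0 (code (l a))) 0 = false :: [] := by
      rw [update_self, hba]; rfl
    have e4 := run_restore hM1 (update (update (update s M (code a)) 0 (code (l a))) 0 [])
      (update_self _ _ _) (by
        rw [update_of_ne (by omega), update_of_ne (by omega), update_of_ne (by omega), hsN1])
    have k2 : (update (update (update s M (code a)) 0 (code (l a))) 0 []) M = code a := by
      rw [update_of_ne (by omega), update_of_ne (by omega), update_self]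
    rw [k2] at e4
    have k3 : update (update (update (update (update s M (code a)) 0 (code (l a))) 0 []) M []) 0
        (code a) = s := by
      funext i
      simp only [update_apply]
      split_ifs <;> simp_all
    rw [k3] at e4
    obtain ⟨c2, hc2, e5⟩ := m3 a s hs (fun i h0 hn => hi i h0 (by omega))
    simp only [hba]
    refine ⟨_, ?_, Run.seq e1 (Run.seq e2 (Run.popF hcode (Run.seq e4 e5)))⟩
    simp only [Polynomial.eval_add, Polynomial.eval_mul, Polynomial.eval_X,
      Polynomial.eval_ofNat]
    unfold sz at *
    omega
  | cons x xs =>
    have hcode : (update (update s M (code a)) 0 (code (l a))) 0 =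
        true :: ((enc x).code ++ (enc xs).code) := by
      rw [update_self, hba]; rfl
    have e3 := run_clr (a := 0) ((enc x).code ++ (enc xs).code)
      (update (update (update s M (code a)) 0 (code (l a))) 0 ((enc x).code ++ (enc xs).code))
      (update_self _ _ _)
    have e4 := run_restore hM1 (update (update (update (update s M (code a)) 0 (code (l a))) 0
      ((enc x).code ++ (enc xs).code)) 0 [])
      (update_self _ _ _) (by
        rw [update_of_ne (by omega), update_of_ne (by omega), update_of_ne (by omega),
          update_of_ne (by omega), hsN1])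
    have k2 : (update (update (update (update s M (code a)) 0 (code (l a))) 0
        ((enc x).code ++ (enc xs).code)) 0 []) M = code a := by
      rw [update_of_ne (by omega), update_of_ne (by omega), update_of_ne (by omega), update_self]
    rw [k2] at e4
    have k3 : update (update (update (update (update (update s M (code a)) 0 (code (l a))) 0
        ((enc x).code ++ (enc xs).code)) 0 []) M []) 0 (code a) = s := by
      funext i
      simp only [update_apply]
      split_ifs <;> simp_all
    rw [k3] at e4
    obtain ⟨c2, hc2, e5⟩ := l3 a s hs (fun i h0 hn => hi i h0 (by omega))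
    have hpc : code ((enc (l a) : T), a) = code ((x, xs), a) := by rw [hba]; rfl
    rw [hpc] at e5
    obtain ⟨c3, hc3, e6⟩ := n3 ((x, xs), a) (update s 0 (code ((x, xs), a))) (update_self _ _ _)
      (fun i h0 hn => by rw [update_of_ne (by omega)]; exact hi i h0 (by omega))
    rw [update_idem] at e6
    have hlen : (code (l a)).length = ((enc x).code ++ (enc xs).code).length + 1 := by
      rw [hba]; rfl
    have hsz : sz ((x, xs), a) ≤ sz a + P0.eval (sz a) := by
      have := hsz0 a
      unfold sz at *
      rw [hpc] at this
      exact this
    have hP := pmono P hsz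
    simp only [hba]
    refine ⟨_, ?_, Run.seq e1 (Run.seq e2 (Run.popT hcode (Run.seq e3 (Run.seq e4
      (Run.seq e5 e6)))))⟩
    simp only [Polynomial.eval_add, Polynomial.eval_mul, Polynomial.eval_X,
      Polynomial.eval_ofNat, Polynomial.eval_comp]
    unfold sz at *
    omega

end Pool.Agent.Helper52.Poly
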