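import Mathlib
import Pool.Agent.Helper52.Poly.Pair

namespace Pool.Agent.Helper52.Poly

open Function

variable {α β γ δ σ : Type} [Enc α] [Enc β] [Enc γ] [Enc δ] [Enc σ]

theorem run_mv' {a b : ℕ} (hab : a ≠ b) {s s' : Store} {l l' : List Bool} (ha : s a = l)
    (hb : s b = l') (h1 : s' a = []) (h2 : s' b = l.reverse ++ l')
    (h3 : ∀ i, i ≠ a → i ≠ b → s' i = s i) : Run (mv a b) s s' (2 * l.length + 1) := by
  refine Run.cast (run_mv hab l s ha) ?_ rfl
  funext i
  by_cases hib : i = b
  · rw [hib, update_self, h2, hb]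
  · rw [update_of_ne hib]
    by_cases hia : i = a
    · rw [hia, update_self, h1]
    · rw [update_of_ne hia, h3 i hia hib]

theorem run_split' {src dst ctr : ℕ} (h1 : src ≠ dst) (h2 : src ≠ ctr) (h3 : dst ≠ ctr) (l : T)
    {s s' : Store} {rest d : List Bool} (hc : s ctr = []) (hs : s src = l.code ++ rest)
    (hd : s dst = d) (k1 : s' src = rest) (k2 : s' dst = l.code.reverse ++ d)
    (k3 : ∀ i, i ≠ src → i ≠ dst → s' i = s i) :
    ∃ k ≤ 7 * l.code.length + 3, Run (split src dst ctr) s s' k := by
  obtain ⟨k, hk, hr⟩ := run_split h1 h2 h3 l s rest hc hs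
  refine ⟨k, hk, Run.cast hr ?_ rfl⟩
  funext i
  by_cases hib : i = dst
  · rw [hib, update_self, k2, hd]
  · rw [update_of_ne hib]
    by_cases hia : i = src
    · rw [hia, update_self, k1]
    · rw [update_of_ne hia, k3 i hia hib]

theorem run_push' {a : ℕ} {b : Bool} {s s' : Store} (h1 : s' a = b :: s a)
    (h3 : ∀ i, i ≠ a → s' i = s i) : Run (.push a b) s s' 1 := by
  refine Run.cast (Run.push s a b) ?_ rfl
  funext i
  by_cases hia : i = a
  · rw [hia, update_self, h1]
  · rw [update_of_ne hia, h3 i hia]

/-- body of the fold loop -/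
def foldBody (M : ℕ) (p : Prog) : Prog :=
  .seq (split M (M + 1) (M + 2)) (.seq (mv 0 (M + 3)) (.seq (mv (M + 1) 0) (.seq (mv (M + 3) 0)
    (.seq (.push 0 true) p))))

theorem run_foldBody {M : ℕ} {p : Prog} {step : σ × α → σ} {n : ℕ} {P : Polynomial ℕ}
    (hM : n ≤ M) (h : Comp n p step P) (acc : σ) (x : α) (s : Store) (rest : List Bool)
    (h0 : s 0 = code acc) (hL : s M = code x ++ rest) (hA : s (M + 1) = []) (hC : s (M + 2) = [])
    (hB : s (M + 3) = []) (hi : ∀ i, 0 < i → i < n → s i = []) :
    ∃ c ≤ 9 * sz x + 4 * sz acc + P.eval (1 + sz acc + sz x) + 12,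
      Run (foldBody M p) s (update (update s M rest) 0 (code (step (acc, x)))) c := by
  obtain ⟨b1, b2, b3⟩ := h
  have n0 : (0 : ℕ) ≠ M := by omega
  have n1 : (0 : ℕ) ≠ M + 1 := by omega
  have n2 : (0 : ℕ) ≠ M + 2 := by omega
  have n3 : (0 : ℕ) ≠ M + 3 := by omega
  have n4 : M ≠ M + 1 := by omega
  have n5 : M ≠ M + 2 := by omega
  have n6 : M ≠ M + 3 := by omega
  have n7 : M + 1 ≠ M + 2 := by omega
  have n8 : M + 1 ≠ M + 3 := by omega
  -- states
  set S0 : Store := update s M rest with hS0
  set S1 : Store := update S0 (M + 1) (code x).reverse with hS1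
  set S2 : Store := update (update S1 0 []) (M + 3) (code acc).reverse with hS2
  set S3 : Store := update (update S0 0 (code x)) (M + 3) (code acc).reverse with hS3
  set S4 : Store := update S0 0 (code acc ++ code x) with hS4
  set S5 : Store := update S0 0 (true :: (code acc ++ code x)) with hS5
  obtain ⟨k, hk, e1⟩ := run_split' (s := s) (s' := S1) (rest := rest) n4 n5 n7 (enc x) hC hL hA
    (by rw [hS1, update_of_ne n4, hS0, update_self])
    (by rw [hS1, update_self, List.append_nil]; rfl)
    (fun i i1 i2 => by rw [hS1, update_of_ne i2, hS0, update_of_ne i1])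
  have e2 : Run (mv 0 (M + 3)) S1 S2 (2 * (code acc).length + 1) := by
    refine run_mv' n3 (l := code acc) (l' := []) ?_ ?_ ?_ ?_ ?_
    · rw [hS1, update_of_ne n1, hS0, update_of_ne n0, h0]
    · rw [hS1, update_of_ne n8.symm, hS0, update_of_ne n6.symm, hB]
    · rw [hS2, update_of_ne n3, update_self]
    · rw [hS2, update_self, List.append_nil]
    · intro i i1 i2; rw [hS2, update_of_ne i2, update_of_ne i1]
  have e3 : Run (mv (M + 1) 0) S2 S3 (2 * (code x).reverse.length + 1) := by
    refine run_mv' n1.symm (l := (code x).reverse) (l' := []) ?_ ?_ ?_ ?_ ?_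
    · rw [hS2, update_of_ne n8, update_of_ne n1.symm, hS1, update_self]
    · rw [hS2, update_of_ne n3, update_self]
    · rw [hS3, update_of_ne n8, update_of_ne n1.symm, hS0, update_of_ne n4.symm, hA]
    · rw [hS3, update_of_ne n3, update_self, List.reverse_reverse, List.append_nil]
    · intro i i1 i2
      by_cases i3 : i = M + 3
      · rw [i3, hS3, update_self, hS2, update_self]
      · rw [hS3, update_of_ne i3, update_of_ne i2, hS2, update_of_ne i3, update_of_ne i2, hS1,
          update_of_ne i1]
  have e4 : Run (mv (M + 3) 0) S3 S4 (2 * (code acc).reverse.length + 1) := by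
    refine run_mv' n3.symm (l := (code acc).reverse) (l' := code x) ?_ ?_ ?_ ?_ ?_
    · rw [hS3, update_self]
    · rw [hS3, update_of_ne n3, update_self]
    · rw [hS4, update_of_ne n3.symm, hS0, update_of_ne n6.symm, hB]
    · rw [hS4, update_self, List.reverse_reverse]
    · intro i i1 i2
      rw [hS4, update_of_ne i2, hS3, update_of_ne i1, update_of_ne i2]
  have e5 : Run (.push 0 true) S4 S5 1 := by
    refine run_push' ?_ ?_
    · rw [hS5, update_self, hS4, update_self]
    · intro i i1; rw [hS5, update_of_ne i1, hS4, update_of_ne i1]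
  obtain ⟨c, hc, e6⟩ := b3 (acc, x) S5 (by rw [hS5, update_self]; rfl)
    (fun i i0 i1 => by
      rw [hS5, update_of_ne (by omega), hS0, update_of_ne (by omega)]; exact hi i i0 i1)
  have hfin : update S5 0 (code (step (acc, x))) = update S0 0 (code (step (acc, x))) := by
    rw [hS5, update_idem]
  rw [hfin] at e6
  have hsz : sz (acc, x) = 1 + sz acc + sz x := by
    simp only [sz, code, enc, T.code, List.length_cons, List.length_append]; omega
  rw [hsz] at hc
  refine ⟨_, ?_, Run.seq e1 (Run.seq e2 (Run.seq e3 (Run.seq e4 (Run.seq e5 e6))))⟩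
  simp only [List.length_reverse]
  unfold sz at *
  have : (code x).length = (enc x).code.length := rfl
  omega

theorem run_foldLoop {M : ℕ} {p : Prog} {step : σ × α → σ} {n : ℕ} {P : Polynomial ℕ}
    (hM : n ≤ M) (h : Comp n p step P) (q S : ℕ) :
    ∀ (l : List α) (acc : σ) (s : Store), s 0 = code acc → s M = code l →
      s (M + 1) = [] → s (M + 2) = [] → s (M + 3) = [] → (∀ i, 0 < i → i < n → s i = []) →
      (∀ l1 l2, l = l1 ++ l2 → sz (l1.foldl (fun u x => step (u, x)) acc) ≤ q) →
      (∀ x ∈ l, sz x ≤ S) →
      ∃ c ≤ l.length * (9 * S + 4 * q + P.eval (1 + q + S) + 13) + 3,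
        Run (.loop M .skip (foldBody M p)) s
          (update (update s M []) 0 (code (l.foldl (fun u x => step (u, x)) acc))) c := by
  have hn : 1 ≤ n := h.2.1
  intro l
  induction l with
  | nil =>
    intro acc s h0 hL hA hC hB hi hq hS
    refine ⟨3, by omega, ?_⟩
    have hL' : s M = false :: [] := hL
    have e2 : Run (.loop M .skip (foldBody M p)) (update s M []) (update s M []) 1 :=
      Run.loopNil (update_self _ _ _)
    refine Run.cast (Run.loopF hL' (Run.skip _) e2) ?_ rfl
    funext i
    by_cases i0 : i = 0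
    · rw [i0, update_self, update_of_ne (by omega), h0]; rfl
    · rw [update_of_ne i0]
  | cons x l ih =>
    intro acc s h0 hL hA hC hB hi hq hS
    have hL' : s M = true :: (code x ++ code l) := hL
    obtain ⟨c1, hc1, e1⟩ := run_foldBody hM h acc x (update s M (code x ++ code l)) (code l)
      (by rw [update_of_ne (by omega), h0]) (update_self _ _ _)
      (by rw [update_of_ne (by omega), hA]) (by rw [update_of_ne (by omega), hC])
      (by rw [update_of_ne (by omega), hB])
      (fun i i0 i1 => by rw [update_of_ne (by omega)]; exact hi i i0 i1)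
    rw [update_idem] at e1
    set s1 := update (update s M (code l)) 0 (code (step (acc, x))) with hs1
    obtain ⟨c2, hc2, e2⟩ := ih (step (acc, x)) s1 (by rw [hs1, update_self])
      (by rw [hs1, update_of_ne (by omega), update_self])
      (by rw [hs1, update_of_ne (by omega), update_of_ne (by omega), hA])
      (by rw [hs1, update_of_ne (by omega), update_of_ne (by omega), hC])
      (by rw [hs1, update_of_ne (by omega), update_of_ne (by omega), hB])
      (fun i i0 i1 => by
        rw [hs1, update_of_ne (by omega), update_of_ne (by omega)]; exact hi i i0 i1)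
      (fun l1 l2 hl => by
        have := hq (x :: l1) l2 (by rw [hl]; rfl)
        exact this)
      (fun y hy => hS y (List.mem_cons_of_mem _ hy))
    have hfin : update (update s1 M []) 0 (code (l.foldl (fun u x => step (u, x))
        (step (acc, x)))) = update (update s M []) 0
        (code ((x :: l).foldl (fun u x => step (u, x)) acc)) := by
      funext i
      by_cases i0 : i = 0
      · rw [i0, update_self, update_self]; rfl
      · rw [update_of_ne i0, update_of_ne i0]
        by_cases iM : i = M
        · rw [iM, update_self, update_self]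
        · rw [update_of_ne iM, update_of_ne iM, hs1, update_of_ne i0, update_of_ne iM]
    rw [hfin] at e2
    refine ⟨_, ?_, Run.loopT hL' e1 e2⟩
    have hx : sz x ≤ S := hS x List.mem_cons_self
    have ha : sz acc ≤ q := hq [] (x :: l) rfl
    have hP := pmono P (show 1 + sz acc + sz x ≤ 1 + q + S by omega)
    rw [List.length_cons, Nat.succ_mul]
    generalize l.length * (9 * S + 4 * q + P.eval (1 + q + S) + 13) = Z at *
    omega

theorem sz_pair (a : α) (b : β) : sz (a, b) = 1 + sz a + sz b := by
  simp only [sz, code, enc, T.code, List.length_cons, List.length_append]; omega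

theorem sz_nil : sz ([] : List α) = 1 := rfl

theorem sz_cons (a : α) (l : List α) : sz (a :: l) = 1 + sz a + sz l := by
  simp only [sz, code, enc, encList, T.code, List.length_cons, List.length_append]; omega

theorem sz_pos (a : α) : 1 ≤ sz a := T.code_pos _

theorem length_le_sz (l : List α) : l.length + 1 ≤ sz l := by
  induction l with
  | nil => simp [sz_nil]
  | cons a l ih => rw [sz_cons, List.length_cons]; omega

theorem sz_mem_le {l : List α} {a : α} (h : a ∈ l) : sz a ≤ sz l := by
  induction l with
  | nil => simp at h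
  | cons b l ih =>
    rw [sz_cons]
    rcases List.mem_cons.1 h with rfl | h
    · omega
    · have := ih h; omega

/-- Bounded folding. -/
theorem PF.foldl {init : γ → σ} {lst : γ → List α} {step : σ × α → σ} (hi : PF init)
    (hl : PF lst) (hs : PF step) (Q : Polynomial ℕ)
    (hQ : ∀ c l1 l2, lst c = l1 ++ l2 →
      sz (l1.foldl (fun u x => step (u, x)) (init c)) ≤ Q.eval (sz c)) :
    PF (fun c => (lst c).foldl (fun u x => step (u, x)) (init c)) := by
  obtain ⟨n0, p0, P0, hc0⟩ := PF.pair hl hi
  have hsz0 := hc0.size_le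
  obtain ⟨a1, a2, a3⟩ := hc0
  obtain ⟨n, p, P, hc⟩ := hs
  have b2 := hc.2.1
  have b1 := hc.1
  set M := max n0 n with hM
  have m0 : (0 : ℕ) ≠ M := by omega
  have m1 : (0 : ℕ) ≠ M + 1 := by omega
  have m2 : (0 : ℕ) ≠ M + 2 := by omega
  have m3 : M + 1 ≠ M + 2 := by omega
  have m4 : M + 1 ≠ M := by omega
  set R : Polynomial ℕ := Polynomial.X + P0 with hR
  refine ⟨M + 4, .seq p0 (.pop 0 .skip .skip (.seq (split 0 (M + 1) (M + 2)) (.seq (mv (M + 1) M)
    (.loop M .skip (foldBody M p))))),
    P0 + 9 * R + R * (9 * R + 4 * Q + P.comp (1 + Q + R) + 13) + 20, ?_, by omega,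
    fun c s hsc hsi => ?_⟩
  · simp only [Prog.bd, foldBody, bd_split, bd_mv]; omega
  obtain ⟨c0, hc0, e0⟩ := a3 c s hsc (fun i i0 i1 => hsi i i0 (by omega))
  have hcode : (update s 0 (code (lst c, init c))) 0 = true :: (code (lst c) ++ code (init c)) := by
    rw [update_self]; rfl
  -- states
  set S1 : Store := update s 0 (code (lst c) ++ code (init c)) with hS1
  set S2 : Store := update (update s 0 (code (init c))) (M + 1) (code (lst c)).reverse with hS2
  set S3 : Store := update (update s 0 (code (init c))) M (code (lst c)) with hS3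
  have x0 := hsi M (by omega) (by omega)
  have x1 := hsi (M + 1) (by omega) (by omega)
  have x2 := hsi (M + 2) (by omega) (by omega)
  have x3 := hsi (M + 3) (by omega) (by omega)
  obtain ⟨k, hk, e1⟩ := run_split' (s := S1) (s' := S2) (rest := code (init c)) m1 m2 m3
    (enc (lst c)) (by rw [hS1, update_of_ne m2.symm, x2]) (by rw [hS1, update_self]; rfl)
    (by rw [hS1, update_of_ne m1.symm, x1])
    (by rw [hS2, update_of_ne m1, update_self])
    (by rw [hS2, update_self, List.append_nil]; rfl)
    (fun i i1 i2 => by rw [hS2, update_of_ne i2, update_of_ne i1, hS1, update_of_ne i1])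
  have e2 : Run (mv (M + 1) M) S2 S3 (2 * (code (lst c)).reverse.length + 1) := by
    refine run_mv' m4 (l := (code (lst c)).reverse) (l' := []) ?_ ?_ ?_ ?_ ?_
    · rw [hS2, update_self]
    · rw [hS2, update_of_ne m4.symm, update_of_ne m0.symm, x0]
    · rw [hS3, update_of_ne m4, update_of_ne m1.symm, x1]
    · rw [hS3, update_self, List.reverse_reverse, List.append_nil]
    · intro i i1 i2
      rw [hS3, update_of_ne i2, hS2, update_of_ne i1]
  obtain ⟨c3, hc3, e3⟩ := run_foldLoop (le_max_right n0 n) hc (Q.eval (sz c)) (sz (lst c))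
    (lst c) (init c) S3 (by rw [hS3, update_of_ne m0, update_self])
    (by rw [hS3, update_self]) (by rw [hS3, update_of_ne m4, update_of_ne m1.symm, x1])
    (by rw [hS3, update_of_ne (by omega), update_of_ne m2.symm, x2])
    (by rw [hS3, update_of_ne (by omega), update_of_ne (by omega), x3])
    (fun i i0 i1 => by
      rw [hS3, update_of_ne (by omega), update_of_ne (by omega)]; exact hsi i i0 (by omega))
    (fun l1 l2 h => hQ c l1 l2 h) (fun x hx => sz_mem_le hx)
  have hfin : update (update S3 M []) 0 (code ((lst c).foldl (fun u x => step (u, x)) (init c))) =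
      update s 0 (code ((lst c).foldl (fun u x => step (u, x)) (init c))) := by
    funext i
    by_cases i0 : i = 0
    · rw [i0, update_self, update_self]
    · rw [update_of_ne i0, update_of_ne i0]
      by_cases iM : i = M
      · rw [iM, update_self, x0]
      · rw [update_of_ne iM, hS3, update_of_ne iM, update_of_ne i0]
  rw [hfin] at e3
  have hpop : Run (.pop 0 .skip .skip (.seq (split 0 (M + 1) (M + 2)) (.seq (mv (M + 1) M)
      (.loop M .skip (foldBody M p))))) (update s 0 (code (lst c, init c)))
      (update s 0 (code ((lst c).foldl (fun u x => step (u, x)) (init c))))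
      ((k + (2 * (code (lst c)).reverse.length + 1 + c3 + 1) + 1) + 1) := by
    refine Run.popT hcode ?_
    rw [update_idem]
    exact Run.seq e1 (Run.seq e2 e3)
  refine ⟨_, ?_, Run.seq e0 hpop⟩
  have h1 : sz (lst c) ≤ R.eval (sz c) := by
    have := hsz0 c
    rw [sz_pair] at this
    rw [hR, Polynomial.eval_add, Polynomial.eval_X]
    omega
  have h2 : (lst c).length ≤ R.eval (sz c) := by
    have := length_le_sz (lst c); omega
  have h3 : P.eval (1 + Q.eval (sz c) + sz (lst c)) ≤
      P.eval (1 + Q.eval (sz c) + R.eval (sz c)) := pmono P (by omega)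
  have h4 : (lst c).length * (9 * sz (lst c) + 4 * Q.eval (sz c) +
      P.eval (1 + Q.eval (sz c) + sz (lst c)) + 13) ≤
      R.eval (sz c) * (9 * R.eval (sz c) + 4 * Q.eval (sz c) +
      P.eval (1 + Q.eval (sz c) + R.eval (sz c)) + 13) := by
    apply Nat.mul_le_mul h2
    omega
  simp only [Polynomial.eval_add, Polynomial.eval_mul,
    Polynomial.eval_ofNat, Polynomial.eval_comp, Polynomial.eval_one, List.length_reverse]
  have h5 : (enc (lst c)).code.length = sz (lst c) := rfl
  have h6 : (code (lst c)).length = sz (lst c) := rfl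
  rw [h6]
  rw [h5] at hk
  omega

end Pool.Agent.Helper52.Poly
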