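import Mathlib
import Pool.Agent.Helper52.Poly.Fold

namespace Pool.Agent.Helper52.Poly

open Function

variable {α β γ δ σ : Type} [Enc α] [Enc β] [Enc γ] [Enc δ] [Enc σ]

/-- Folding with an invariant that bounds the size. -/
theorem PF.foldlInv {init : γ → σ} {lst : γ → List α} {step : σ × α → σ} (hi : PF init)
    (hl : PF lst) (hs : PF step) (I : γ → σ → Prop) (Q : Polynomial ℕ)
    (h0 : ∀ c, I c (init c)) (h1 : ∀ c u x, I c u → x ∈ lst c → I c (step (u, x)))
    (hQ : ∀ c u, I c u → sz u ≤ Q.eval (sz c)) :
    PF (fun c => (lst c).foldl (fun u x => step (u, x)) (init c)) := by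
  refine PF.foldl hi hl hs Q (fun c l1 l2 hl' => hQ c _ ?_)
  have : ∀ (l : List α) (u : σ), (∀ x ∈ l, x ∈ lst c) → I c u →
      I c (l.foldl (fun u x => step (u, x)) u) := by
    intro l
    induction l with
    | nil => intro u _ hu; exact hu
    | cons x l ih =>
      intro u hx hu
      exact ih _ (fun y hy => hx y (List.mem_cons_of_mem _ hy))
        (h1 c u x hu (hx x List.mem_cons_self))
  exact this l1 _ (fun x hx => by rw [hl']; exact List.mem_append_left _ hx) (h0 c)

/-- Folding with additive growth. -/
theorem PF.foldlGrow {init : γ → σ} {lst : γ → List α} {step : σ × α → σ} (hi : PF init)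
    (hl : PF lst) (hs : PF step) (G : Polynomial ℕ)
    (hG : ∀ c u x, x ∈ lst c → sz (step (u, x)) ≤ sz u + G.eval (sz c)) :
    PF (fun c => (lst c).foldl (fun u x => step (u, x)) (init c)) := by
  obtain ⟨Qi, hQi⟩ := hi.size_le
  obtain ⟨Ql, hQl⟩ := hl.size_le
  refine PF.foldl hi hl hs (Qi + Ql * G) (fun c l1 l2 hl' => ?_)
  have : ∀ (l : List α) (u : σ), (∀ x ∈ l, x ∈ lst c) →
      sz (l.foldl (fun u x => step (u, x)) u) ≤ sz u + l.length * G.eval (sz c) := by
    intro l
    induction l with
    | nil => intro u _; simp
    | cons x l ih =>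
      intro u hx
      have h1 := ih (step (u, x)) (fun y hy => hx y (List.mem_cons_of_mem _ hy))
      have h2 := hG c u x (hx x List.mem_cons_self)
      rw [List.length_cons, Nat.succ_mul]
      simp only [List.foldl_cons]
      omega
  have h3 := this l1 (init c) (fun x hx => by rw [hl']; exact List.mem_append_left _ hx)
  have h4 := hQi c
  have h5 : l1.length ≤ Ql.eval (sz c) := by
    have e1 := length_le_sz (lst c)
    have e2 := hQl c
    have e3 : (lst c).length = l1.length + l2.length := by rw [hl', List.length_append]
    omega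
  have h6 : l1.length * G.eval (sz c) ≤ Ql.eval (sz c) * G.eval (sz c) :=
    Nat.mul_le_mul_right _ h5
  simp only [Polynomial.eval_add, Polynomial.eval_mul]
  omega

/-- Folding with an environment. -/
theorem PF.foldlEnv {init : γ → σ} {lst : γ → List α} {step : (γ × σ) × α → σ} (hi : PF init)
    (hl : PF lst) (hs : PF step) (I : γ → σ → Prop) (Q : Polynomial ℕ)
    (h0 : ∀ c, I c (init c)) (h1 : ∀ c u x, I c u → x ∈ lst c → I c (step ((c, u), x)))
    (hQ : ∀ c u, I c u → sz u ≤ Q.eval (sz c)) :
    PF (fun c => (lst c).foldl (fun u x => step ((c, u), x)) (init c)) := by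
  have hinit : PF (fun c => (c, init c)) := PF.pair PF.id hi
  have hstep : PF (fun s : (γ × σ) × α => (s.1.1, step s)) :=
    PF.pair (PF.fst' PF.fst) hs
  have key := PF.foldlInv hinit hl hstep (fun c u => u.1 = c ∧ I c u.2) (1 + Polynomial.X + Q)
    (fun c => ⟨rfl, h0 c⟩)
    (fun c u x hu hx => ⟨hu.1, by
      obtain ⟨u1, u2⟩ := u
      obtain ⟨h, h'⟩ := hu
      simp only at h h'
      subst h
      exact h1 _ _ _ h' hx⟩)
    (fun c u hu => by
      obtain ⟨u1, u2⟩ := u
      obtain ⟨h, h'⟩ := hu
      simp only at h h'
      subst h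
      rw [sz_pair]
      simp only [Polynomial.eval_add, Polynomial.eval_one, Polynomial.eval_X]
      have := hQ _ _ h'
      omega)
  refine (key.snd').congr (fun c => ?_)
  congr 1
  have : ∀ (l : List α) (u : σ), (l.foldl (fun (s : γ × σ) x => (s.1, step (s, x))) (c, u)) =
      (c, l.foldl (fun u x => step ((c, u), x)) u) := by
    intro l
    induction l with
    | nil => intro u; rfl
    | cons x l ih => intro u; exact ih _
  exact (congrArg Prod.snd (this (lst c) (init c))).symm

/-- Folding with an environment and additive growth. -/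
theorem PF.foldlEnvGrow {init : γ → σ} {lst : γ → List α} {step : (γ × σ) × α → σ} (hi : PF init)
    (hl : PF lst) (hs : PF step) (G : Polynomial ℕ)
    (hG : ∀ c u x, x ∈ lst c → sz (step ((c, u), x)) ≤ sz u + G.eval (sz c)) :
    PF (fun c => (lst c).foldl (fun u x => step ((c, u), x)) (init c)) := by
  obtain ⟨Qi, hQi⟩ := hi.size_le
  obtain ⟨Ql, hQl⟩ := hl.size_le
  have hinit : PF (fun c => (c, init c)) := PF.pair PF.id hi
  have hstep : PF (fun s : (γ × σ) × α => (s.1.1, step s)) :=
    PF.pair (PF.fst' PF.fst) hs
  have key := PF.foldl hinit hl hstep (1 + Polynomial.X + Qi + Ql * G) (fun c l1 l2 hl' => by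
    have : ∀ (l : List α) (u : σ), (∀ x ∈ l, x ∈ lst c) →
      (l.foldl (fun (s : γ × σ) x => (s.1, step (s, x))) (c, u)).1 = c ∧
      sz (l.foldl (fun (s : γ × σ) x => (s.1, step (s, x))) (c, u)).2 ≤
        sz u + l.length * G.eval (sz c) := by
      intro l
      induction l with
      | nil => intro u _; simp
      | cons x l ih =>
        intro u hx
        have h1 := ih (step ((c, u), x)) (fun y hy => hx y (List.mem_cons_of_mem _ hy))
        have h2 := hG c u x (hx x List.mem_cons_self)
        rw [List.length_cons, Nat.succ_mul]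
        simp only [List.foldl_cons]
        exact ⟨h1.1, by omega⟩
    have h3 := this l1 (init c) (fun x hx => by rw [hl']; exact List.mem_append_left _ hx)
    have h4 := hQi c
    have h5 : l1.length ≤ Ql.eval (sz c) := by
      have e1 := length_le_sz (lst c)
      have e2 := hQl c
      have e3 : (lst c).length = l1.length + l2.length := by rw [hl', List.length_append]
      omega
    have h6 : l1.length * G.eval (sz c) ≤ Ql.eval (sz c) * G.eval (sz c) :=
      Nat.mul_le_mul_right _ h5
    set r := l1.foldl (fun (s : γ × σ) x => (s.1, step (s, x))) (c, init c) with hr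
    have hr' : r = (c, r.2) := by rw [← h3.1]
    rw [hr', sz_pair]
    simp only [Polynomial.eval_add, Polynomial.eval_mul, Polynomial.eval_one, Polynomial.eval_X]
    have := h3.2
    omega)
  refine (key.snd').congr (fun c => ?_)
  congr 1
  have : ∀ (l : List α) (u : σ), (l.foldl (fun (s : γ × σ) x => (s.1, step (s, x))) (c, u)) =
      (c, l.foldl (fun u x => step ((c, u), x)) u) := by
    intro l
    induction l with
    | nil => intro u; rfl
    | cons x l ih => intro u; exact ih _
  exact (congrArg Prod.snd (this (lst c) (init c))).symm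

/-! ### Booleans -/

theorem sz_bool (b : Bool) : sz b ≤ 3 := by cases b <;> simp [sz, code, enc, T.code]

theorem PF.not {b : α → Bool} (hb : PF b) : PF (fun a => !(b a)) :=
  (PF.cond hb (PF.const false) (PF.const true)).congr (fun a => by cases b a <;> rfl)

theorem PF.and {b c : α → Bool} (hb : PF b) (hc : PF c) : PF (fun a => b a && c a) :=
  (PF.cond hb hc (PF.const false)).congr (fun a => by cases b a <;> rfl)

theorem PF.or {b c : α → Bool} (hb : PF b) (hc : PF c) : PF (fun a => b a || c a) :=
  (PF.cond hb (PF.const true) hc).congr (fun a => by cases b a <;> rfl)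

theorem PF.xor {b c : α → Bool} (hb : PF b) (hc : PF c) : PF (fun a => Bool.xor (b a) (c a)) :=
  (PF.cond hb hc.not hc).congr (fun a => by cases b a <;> cases c a <;> rfl)

theorem PF.head {l : α → List Bool} (hl : PF l) : PF (fun a => (l a).headD false) :=
  (PF.left.comp (hl.congr (g := fun a => (enc (l a) : T)) (fun _ => rfl))).congr
    (fun a => by cases l a <;> rfl)

theorem PF.isEmpty {l : α → List β} (hl : PF l) : PF (fun a => (l a).isEmpty) :=
  (PF.caseLeaf (hl.congr (g := fun a => (enc (l a) : T)) (fun _ => rfl)) (PF.const true)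
    (PF.const false)).congr (fun a => by cases l a <;> rfl)

/-! ### Lists -/

theorem PF.reverse {l : γ → List α} (hl : PF l) : PF (fun c => (l c).reverse) := by
  obtain ⟨Q, hQ⟩ := hl.size_le
  have := PF.foldlGrow (init := fun _ : γ => ([] : List α)) (lst := l)
    (step := fun s : List α × α => s.2 :: s.1) (PF.const _) hl (PF.cons PF.snd PF.fst) (1 + Q)
    (fun c u x hx => by
      rw [sz_cons]
      have h1 := sz_mem_le hx
      have h2 := hQ c
      simp only [Polynomial.eval_add, Polynomial.eval_one]
      omega)
  refine this.congr (fun c => ?_)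
  congr 1
  have e : ∀ (l m : List α), l.foldl (fun u x => x :: u) m = l.reverse ++ m := by
    intro l
    induction l with
    | nil => intro m; rfl
    | cons a l ih => intro m; simp [ih]
  rw [e, List.append_nil]

theorem PF.append {l m : γ → List α} (hl : PF l) (hm : PF m) : PF (fun c => l c ++ m c) := by
  obtain ⟨Q, hQ⟩ := hl.reverse.size_le
  have := PF.foldlGrow (init := m) (lst := fun c => (l c).reverse)
    (step := fun s : List α × α => s.2 :: s.1) hm hl.reverse (PF.cons PF.snd PF.fst) (1 + Q)
    (fun c u x hx => by
      rw [sz_cons]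
      have h1 := sz_mem_le hx
      have h2 := hQ c
      simp only [Polynomial.eval_add, Polynomial.eval_one]
      omega)
  refine this.congr (fun c => ?_)
  congr 1
  have e : ∀ (l m : List α), l.foldl (fun u x => x :: u) m = l.reverse ++ m := by
    intro l
    induction l with
    | nil => intro m; rfl
    | cons a l ih => intro m; simp [ih]
  rw [e, List.reverse_reverse]

/-- mapping with an environment -/
theorem PF.map {l : γ → List α} {h : γ × α → β} (hl : PF l) (hh : PF h) :
    PF (fun c => (l c).map (fun x => h (c, x))) := by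
  obtain ⟨Q, hQ⟩ := hl.size_le
  obtain ⟨H, hH⟩ := hh.size_le
  have hstep : PF (fun s : (γ × List β) × α => h (s.1.1, s.2) :: s.1.2) :=
    PF.cons (hh.comp (PF.pair (PF.fst' PF.fst) PF.snd)) (PF.snd' PF.fst)
  have key := PF.foldlEnvGrow (init := fun _ : γ => ([] : List β)) (lst := l) (PF.const _) hl hstep
    (1 + H.comp (1 + Polynomial.X + Q))
    (fun c u x hx => by
      rw [sz_cons]
      have h1 := sz_mem_le hx
      have h2 := hQ c
      have h3 := hH (c, x)
      rw [sz_pair] at h3
      have h4 := pmono H (show 1 + sz c + sz x ≤ 1 + sz c + Q.eval (sz c) by omega)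
      simp only [Polynomial.eval_add, Polynomial.eval_one, Polynomial.eval_comp,
        Polynomial.eval_X]
      omega)
  refine key.reverse.congr (fun c => ?_)
  congr 1
  have e : ∀ (l : List α) (m : List β), l.foldl (fun u x => h (c, x) :: u) m =
      (l.map (fun x => h (c, x))).reverse ++ m := by
    intro l
    induction l with
    | nil => intro m; rfl
    | cons a l ih => intro m; simp [ih]
  rw [e, List.append_nil, List.reverse_reverse]

/-- filtering -/
theorem PF.filter {l : γ → List α} {b : α → Bool} (hl : PF l) (hb : PF b) :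
    PF (fun c => (l c).filter b) := by
  obtain ⟨Q, hQ⟩ := hl.size_le
  have hstep : PF (fun s : List α × α => bif b s.2 then s.2 :: s.1 else s.1) :=
    PF.cond (hb.comp PF.snd) (PF.cons PF.snd PF.fst) PF.fst
  have key := PF.foldlGrow (init := fun _ : γ => ([] : List α)) (lst := l) (PF.const _) hl hstep
    (1 + Q)
    (fun c u x hx => by
      have h1 := sz_mem_le hx
      have h2 := hQ c
      simp only [Polynomial.eval_add, Polynomial.eval_one]
      cases b x
      · simp only [cond_false]; omega
      · simp only [cond_true]; rw [sz_cons]; omega)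
  refine key.reverse.congr (fun c => ?_)
  congr 1
  have e : ∀ (l m : List α), l.foldl (fun u x => bif b x then x :: u else u) m =
      (l.filter b).reverse ++ m := by
    intro l
    induction l with
    | nil => intro m; rfl
    | cons a l ih =>
      intro m
      rw [List.foldl_cons, ih, List.filter_cons]
      cases b a <;> simp
  rw [e, List.append_nil, List.reverse_reverse]

end Pool.Agent.Helper52.Poly
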