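import Mathlib
import Pool.Agent.Helper52.Poly.Lists

namespace Pool.Agent.Helper52.Poly

open Function

variable {α β γ δ σ : Type} [Enc α] [Enc β] [Enc γ] [Enc δ] [Enc σ]

/-! ### Sizes of numbers -/

theorem sz_nat (n : ℕ) : sz n = sz n.bits := rfl

theorem sz_bits_le (l : List Bool) : sz l ≤ 4 * l.length + 1 := by
  induction l with
  | nil => simp [sz_nil]
  | cons b l ih => rw [sz_cons, List.length_cons]; have := sz_bool b; omega

theorem sz_nat_le (n : ℕ) : sz n ≤ 4 * n.size + 1 := by
  rw [sz_nat, ← Nat.size_eq_bits_len]; exact sz_bits_le _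

theorem size_le_sz (n : ℕ) : n.size ≤ sz n := by
  rw [sz_nat, ← Nat.size_eq_bits_len]
  have := length_le_sz n.bits
  omega

/-! ### Values of digit lists -/

/-- value of a digit list, least significant digit first -/
def bv : List Bool → ℕ
  | [] => 0
  | b :: l => b.toNat + 2 * bv l

theorem bv_head_tail (l : List Bool) : bv l = (l.headD false).toNat + 2 * bv l.tail := by
  cases l <;> simp [bv]

theorem bv_append (l m : List Bool) : bv (l ++ m) = bv l + 2 ^ l.length * bv m := by
  induction l with
  | nil => simp [bv]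
  | cons b l ih => simp only [List.cons_append, bv, ih, List.length_cons, pow_succ]; ring

theorem bv_lt (l : List Bool) : bv l < 2 ^ l.length := by
  induction l with
  | nil => simp [bv]
  | cons b l ih =>
    simp only [bv, List.length_cons, pow_succ]
    have : b.toNat ≤ 1 := Bool.toNat_le b
    omega

theorem bv_bits (n : ℕ) : bv n.bits = n := by
  induction n using Nat.binaryRec' with
  | zero => simp [bv]
  | bit b n hn ih =>
    rw [Nat.bits_append_bit n b hn, bv, ih, Nat.bit_val]
    cases b <;> simp <;> ring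

/-- value with the most significant digit first -/
def mv' (m : List Bool) : ℕ := m.foldl (fun v x => Nat.bit x v) 0

theorem bv_reverse_foldl (m : List Bool) : ∀ v : ℕ,
    m.foldl (fun v x => Nat.bit x v) v = bv m.reverse + 2 ^ m.length * v := by
  induction m with
  | nil => intro v; simp [bv]
  | cons x m ih =>
    intro v
    rw [List.foldl_cons, ih, List.reverse_cons, bv_append, Nat.bit_val, List.length_reverse,
      List.length_cons, pow_succ]
    have : bv [x] = x.toNat := by simp [bv]
    rw [this]
    cases x <;> simp <;> ring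

/-- remove leading zeros from a most-significant-first list, and reverse -/
def trimRev (m : List Bool) : List Bool :=
  m.foldl (fun u x => bif u.isEmpty && !x then u else x :: u) []

theorem trimRev_eq (m : List Bool) : trimRev m = (bv m.reverse).bits := by
  have key : ∀ (m : List Bool) (v : ℕ),
      m.foldl (fun u x => bif u.isEmpty && !x then u else x :: u) v.bits =
      (m.foldl (fun v x => Nat.bit x v) v).bits := by
    intro m
    induction m with
    | nil => intro v; rfl
    | cons x m ih =>
      intro v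
      rw [List.foldl_cons, List.foldl_cons, ← ih]
      congr 1
      by_cases h : v = 0 → x = true
      · rw [Nat.bits_append_bit v x h]
        have : (v.bits.isEmpty && !x) = false := by
          by_cases hv : v = 0
          · simp [hv, h hv]
          · have : v.bits ≠ [] := by
              intro hb
              apply hv
              have := bv_bits v
              rw [hb] at this
              exact this.symm
            cases hb : v.bits with
            | nil => exact absurd hb this
            | cons => rfl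
        rw [this]; rfl
      · push Not at h
        obtain ⟨h1, h2⟩ := h
        subst h1
        have h2 : x = false := by simpa using h2
        subst h2
        simp [Nat.bit_val]
  have h := key m 0
  rw [Nat.zero_bits] at h
  unfold trimRev
  rw [h, bv_reverse_foldl]
  simp

theorem PF.trimRev {l : γ → List Bool} (hl : PF l) : PF (fun c => Poly.trimRev (l c)) := by
  have hstep : PF (fun s : List Bool × Bool => bif s.1.isEmpty && !s.2 then s.1 else s.2 :: s.1) :=
    PF.cond (PF.and (PF.isEmpty PF.fst) (PF.not PF.snd)) PF.fst (PF.cons PF.snd PF.fst)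
  exact PF.foldlGrow (init := fun _ : γ => ([] : List Bool)) (lst := l) (PF.const _) hl hstep 4
    (fun c u x _ => by
      have := sz_bool x
      simp only [Polynomial.eval_ofNat]
      cases (u.isEmpty && !x)
      · simp only [cond_false]; rw [sz_cons]; omega
      · simp only [cond_true]; omega)

/-! ### Addition -/

/-- state of the adder -/
abbrev AS : Type := ((List Bool × List Bool) × Bool) × List Bool

def addStep (s : AS) : AS :=
  (((s.1.1.1.tail, s.1.1.2.tail),
    (s.1.1.1.headD false && s.1.1.2.headD false) ||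
      (Bool.xor (s.1.1.1.headD false) (s.1.1.2.headD false) && s.1.2)),
    Bool.xor (Bool.xor (s.1.1.1.headD false) (s.1.1.2.headD false)) s.1.2 :: s.2)

theorem PF.addStep : PF Poly.addStep := by
  have l1 : PF (fun s : AS => s.1.1.1) := PF.fst' (PF.fst' PF.fst)
  have l2 : PF (fun s : AS => s.1.1.2) := PF.snd' (PF.fst' PF.fst)
  have c : PF (fun s : AS => s.1.2) := PF.snd' PF.fst
  have out : PF (fun s : AS => s.2) := PF.snd
  exact PF.pair (PF.pair (PF.pair l1.tail l2.tail) (PF.or (PF.and l1.head l2.head)
    (PF.and (PF.xor l1.head l2.head) c))) (PF.cons (PF.xor (PF.xor l1.head l2.head) c) out)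

theorem sz_tail_le (l : List α) : sz l.tail ≤ sz l := by
  cases l with
  | nil => exact le_rfl
  | cons a l => rw [sz_cons]; simp only [List.tail_cons]; omega

theorem addStep_inv (s : AS) :
    bv (Poly.addStep s).2.reverse + 2 ^ (Poly.addStep s).2.length *
      ((Poly.addStep s).1.2.toNat + bv (Poly.addStep s).1.1.1 + bv (Poly.addStep s).1.1.2) =
    bv s.2.reverse + 2 ^ s.2.length * (s.1.2.toNat + bv s.1.1.1 + bv s.1.1.2) := by
  obtain ⟨⟨⟨l1, l2⟩, c⟩, out⟩ := s
  simp only [Poly.addStep, List.reverse_cons, bv_append, List.length_reverse, List.length_cons,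
    pow_succ]
  rw [bv_head_tail l1, bv_head_tail l2]
  simp only [bv]
  cases l1.headD false <;> cases l2.headD false <;> cases c <;> simp <;> ring

theorem drop_tail' {α : Type} (l : List α) (k : ℕ) : l.tail.drop k = l.drop (k + 1) := by
  cases l <;> simp

theorem iter_tails (k : ℕ) (s : AS) : ((Poly.addStep^[k] s).1.1.1 = s.1.1.1.drop k) ∧
    ((Poly.addStep^[k] s).1.1.2 = s.1.1.2.drop k) := by
  induction k generalizing s with
  | zero => simp
  | succ k ih =>
    rw [Function.iterate_succ_apply]
    have := ih (Poly.addStep s)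
    rw [this.1, this.2]
    exact ⟨drop_tail' _ _, drop_tail' _ _⟩

def iniAS (x : ℕ × ℕ) : AS := (((x.1.bits, x.2.bits), false), [])

def clk (x : ℕ × ℕ) : List Bool := x.1.bits ++ x.2.bits

def addOut (x : ℕ × ℕ) : AS :=
  (clk x).foldl (fun u _ => Poly.addStep u) (iniAS x)

theorem addOut_eq (x : ℕ × ℕ) : Poly.trimRev ((addOut x).1.2 :: (addOut x).2) =
    (x.1 + x.2).bits := by
  rw [trimRev_eq]
  congr 1
  have h1 : addOut x = Poly.addStep^[x.1.bits.length + x.2.bits.length]
      (((x.1.bits, x.2.bits), false), []) := by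
    unfold addOut clk iniAS
    rw [List.foldl_const, List.length_append]
  have inv : ∀ (k : ℕ) (s : AS), bv (Poly.addStep^[k] s).2.reverse +
      2 ^ (Poly.addStep^[k] s).2.length * ((Poly.addStep^[k] s).1.2.toNat +
        bv (Poly.addStep^[k] s).1.1.1 + bv (Poly.addStep^[k] s).1.1.2) =
      bv s.2.reverse + 2 ^ s.2.length * (s.1.2.toNat + bv s.1.1.1 + bv s.1.1.2) := by
    intro k
    induction k with
    | zero => intro s; rfl
    | succ k ih => intro s; rw [Function.iterate_succ_apply, ih, addStep_inv]
  have h2 := inv (x.1.bits.length + x.2.bits.length) (((x.1.bits, x.2.bits), false), [])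
  have h3 := iter_tails (x.1.bits.length + x.2.bits.length) (((x.1.bits, x.2.bits), false), [])
  rw [← h1] at h2 h3
  rw [h3.1, h3.2] at h2
  simp only [List.drop_eq_nil_of_le (Nat.le_add_right x.1.bits.length x.2.bits.length),
    List.drop_eq_nil_of_le (Nat.le_add_left x.2.bits.length x.1.bits.length), bv,
    List.reverse_nil, List.length_nil, pow_zero, one_mul, Bool.toNat_false, zero_add,
    add_zero, bv_bits] at h2
  rw [List.reverse_cons, bv_append, List.length_reverse]
  simp only [bv]
  rw [← h2]; ring

theorem sz_addStep (u : AS) : sz (Poly.addStep u) ≤ sz u + 20 := by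
  obtain ⟨⟨⟨l1, l2⟩, c⟩, out⟩ := u
  unfold Poly.addStep
  simp only [sz_pair, sz_cons]
  have h1 := sz_tail_le l1
  have h2 := sz_tail_le l2
  have h3 := sz_bool ((l1.headD false && l2.headD false) ||
    (Bool.xor (l1.headD false) (l2.headD false) && c))
  have h4 := sz_bool (Bool.xor (Bool.xor (l1.headD false) (l2.headD false)) c)
  omega

theorem PF.iniAS : PF Poly.iniAS := by
  have b1 : PF (fun x : ℕ × ℕ => x.1.bits) := PF.fst.congr (fun _ => rfl)
  have b2 : PF (fun x : ℕ × ℕ => x.2.bits) := PF.snd.congr (fun _ => rfl)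
  exact PF.pair (PF.pair (PF.pair b1 b2) (PF.const false)) (PF.const [])

theorem PF.clk : PF Poly.clk := by
  have b1 : PF (fun x : ℕ × ℕ => x.1.bits) := PF.fst.congr (fun _ => rfl)
  have b2 : PF (fun x : ℕ × ℕ => x.2.bits) := PF.snd.congr (fun _ => rfl)
  exact PF.append b1 b2

theorem PF.addOut : PF Poly.addOut := by
  have hstep : PF (fun s : AS × Bool => Poly.addStep s.1) := PF.addStep.comp PF.fst
  have key := PF.foldlGrow PF.iniAS PF.clk hstep (Polynomial.C 20)
    (fun c u x _ => by rw [Polynomial.eval_C]; exact sz_addStep u)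
  exact key

theorem PF.add {f g : α → ℕ} (hf : PF f) (hg : PF g) : PF (fun a => f a + g a) := by
  have h : PF (fun a => Poly.trimRev ((Poly.addOut (f a, g a)).1.2 :: (Poly.addOut (f a, g a)).2)) := by
    have h0 := PF.addOut.comp (PF.pair hf hg)
    exact PF.trimRev (PF.cons (PF.snd' (PF.fst' h0)) (PF.snd' h0))
  refine h.congr (fun a => ?_)
  rw [addOut_eq]; rfl

/-! ### Subtraction and comparison -/

def subStep (s : AS) : AS :=
  (((s.1.1.1.tail, s.1.1.2.tail),
    (!(s.1.1.1.headD false) && s.1.1.2.headD false) ||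
      (!(Bool.xor (s.1.1.1.headD false) (s.1.1.2.headD false)) && s.1.2)),
    Bool.xor (Bool.xor (s.1.1.1.headD false) (s.1.1.2.headD false)) s.1.2 :: s.2)

theorem PF.subStep : PF Poly.subStep := by
  have l1 : PF (fun s : AS => s.1.1.1) := PF.fst' (PF.fst' PF.fst)
  have l2 : PF (fun s : AS => s.1.1.2) := PF.snd' (PF.fst' PF.fst)
  have c : PF (fun s : AS => s.1.2) := PF.snd' PF.fst
  have out : PF (fun s : AS => s.2) := PF.snd
  exact PF.pair (PF.pair (PF.pair l1.tail l2.tail) (PF.or (PF.and l1.head.not l2.head)
    (PF.and (PF.xor l1.head l2.head).not c))) (PF.cons (PF.xor (PF.xor l1.head l2.head) c) out)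

theorem subStep_inv (s : AS) :
    (bv (Poly.subStep s).2.reverse : ℤ) + 2 ^ (Poly.subStep s).2.length *
      ((bv (Poly.subStep s).1.1.1 : ℤ) - bv (Poly.subStep s).1.1.2 - (Poly.subStep s).1.2.toNat) =
    bv s.2.reverse + 2 ^ s.2.length * ((bv s.1.1.1 : ℤ) - bv s.1.1.2 - s.1.2.toNat) := by
  obtain ⟨⟨⟨l1, l2⟩, c⟩, out⟩ := s
  simp only [Poly.subStep, List.reverse_cons, bv_append, List.length_reverse, List.length_cons,
    pow_succ]
  rw [bv_head_tail l1, bv_head_tail l2]
  simp only [bv]
  push_cast
  cases l1.headD false <;> cases l2.headD false <;> cases c <;> simp <;> ring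

theorem iter_tails' (k : ℕ) (s : AS) : ((Poly.subStep^[k] s).1.1.1 = s.1.1.1.drop k) ∧
    ((Poly.subStep^[k] s).1.1.2 = s.1.1.2.drop k) := by
  induction k generalizing s with
  | zero => simp
  | succ k ih =>
    rw [Function.iterate_succ_apply]
    have := ih (Poly.subStep s)
    rw [this.1, this.2]
    exact ⟨drop_tail' _ _, drop_tail' _ _⟩

def subOut (x : ℕ × ℕ) : AS :=
  (clk x).foldl (fun u _ => Poly.subStep u) (iniAS x)

theorem subOut_eq (x : ℕ × ℕ) : (bv (subOut x).2.reverse : ℤ) =
    (x.1 : ℤ) - x.2 + 2 ^ (subOut x).2.length * (subOut x).1.2.toNat := by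
  have h1 : subOut x = Poly.subStep^[x.1.bits.length + x.2.bits.length]
      (((x.1.bits, x.2.bits), false), []) := by
    unfold subOut clk iniAS
    rw [List.foldl_const, List.length_append]
  have inv : ∀ (k : ℕ) (s : AS), (bv (Poly.subStep^[k] s).2.reverse : ℤ) +
      2 ^ (Poly.subStep^[k] s).2.length * ((bv (Poly.subStep^[k] s).1.1.1 : ℤ) -
        bv (Poly.subStep^[k] s).1.1.2 - (Poly.subStep^[k] s).1.2.toNat) =
      bv s.2.reverse + 2 ^ s.2.length * ((bv s.1.1.1 : ℤ) - bv s.1.1.2 - s.1.2.toNat) := by
    intro k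
    induction k with
    | zero => intro s; rfl
    | succ k ih => intro s; rw [Function.iterate_succ_apply, ih, subStep_inv]
  have h2 := inv (x.1.bits.length + x.2.bits.length) (((x.1.bits, x.2.bits), false), [])
  have h3 := iter_tails' (x.1.bits.length + x.2.bits.length) (((x.1.bits, x.2.bits), false), [])
  rw [← h1] at h2 h3
  rw [h3.1, h3.2] at h2
  simp only [List.drop_eq_nil_of_le (Nat.le_add_right x.1.bits.length x.2.bits.length),
    List.drop_eq_nil_of_le (Nat.le_add_left x.2.bits.length x.1.bits.length), bv,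
    List.reverse_nil, List.length_nil, pow_zero, one_mul, Bool.toNat_false, bv_bits,
    Nat.cast_zero, sub_zero, zero_add] at h2
  linarith

theorem subOut_lt (x : ℕ × ℕ) : (subOut x).1.2 = decide (x.1 < x.2) := by
  have h := subOut_eq x
  have hlt : (bv (subOut x).2.reverse : ℤ) < 2 ^ (subOut x).2.length := by
    have := bv_lt (subOut x).2.reverse
    rw [List.length_reverse] at this
    exact_mod_cast this
  have h0 : (0 : ℤ) ≤ bv (subOut x).2.reverse := by positivity
  by_cases hx : x.1 < x.2
  · simp only [hx, decide_true]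
    by_contra hc
    have hc : (subOut x).1.2 = false := by simpa using hc
    rw [hc] at h
    simp only [Bool.toNat_false, Nat.cast_zero, mul_zero, add_zero] at h
    have : (x.1 : ℤ) < x.2 := by exact_mod_cast hx
    linarith
  · simp only [hx, decide_false]
    by_contra hc
    have hc : (subOut x).1.2 = true := by simpa using hc
    rw [hc] at h
    simp only [Bool.toNat_true, Nat.cast_one, mul_one] at h
    have : (x.2 : ℤ) ≤ x.1 := by exact_mod_cast not_lt.1 hx
    linarith

theorem sz_subStep (u : AS) : sz (Poly.subStep u) ≤ sz u + 20 := by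
  obtain ⟨⟨⟨l1, l2⟩, c⟩, out⟩ := u
  unfold Poly.subStep
  simp only [sz_pair, sz_cons]
  have h1 := sz_tail_le l1
  have h2 := sz_tail_le l2
  have h3 := sz_bool ((!(l1.headD false) && l2.headD false) ||
    (!(Bool.xor (l1.headD false) (l2.headD false)) && c))
  have h4 := sz_bool (Bool.xor (Bool.xor (l1.headD false) (l2.headD false)) c)
  omega

theorem PF.subOut : PF Poly.subOut := by
  have hstep : PF (fun s : AS × Bool => Poly.subStep s.1) := PF.subStep.comp PF.fst
  have key := PF.foldlGrow PF.iniAS PF.clk hstep (Polynomial.C 20)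
    (fun c u x _ => by rw [Polynomial.eval_C]; exact sz_subStep u)
  exact key

theorem PF.lt {f g : α → ℕ} (hf : PF f) (hg : PF g) : PF (fun a => decide (f a < g a)) := by
  have h0 := PF.subOut.comp (PF.pair hf hg)
  refine (PF.snd' (PF.fst' h0)).congr (fun a => ?_)
  rw [subOut_lt]

theorem PF.le {f g : α → ℕ} (hf : PF f) (hg : PF g) : PF (fun a => decide (f a ≤ g a)) := by
  refine (PF.lt hg hf).not.congr (fun a => ?_)
  congr 1
  by_cases h : f a ≤ g a
  · simp [h]
  · simp [h, not_le.1 h]

theorem PF.eqNat {f g : α → ℕ} (hf : PF f) (hg : PF g) : PF (fun a => decide (f a = g a)) := by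
  refine (PF.and (PF.le hf hg) (PF.le hg hf)).congr (fun a => ?_)
  congr 1
  by_cases h : f a = g a
  · simp [h]
  · have : ¬ (f a ≤ g a ∧ g a ≤ f a) := by omega
    simp only [h, decide_false]
    rw [← Bool.decide_and]
    simp [this]

theorem PF.sub {f g : α → ℕ} (hf : PF f) (hg : PF g) : PF (fun a => f a - g a) := by
  have h0 := PF.subOut.comp (PF.pair hf hg)
  have h1 : PF (fun a => bif (Poly.subOut (f a, g a)).1.2 then ([] : List Bool) else
      Poly.trimRev (Poly.subOut (f a, g a)).2) :=
    PF.cond (PF.snd' (PF.fst' h0)) (PF.const _) (PF.trimRev (PF.snd' h0))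
  refine h1.congr (fun a => ?_)
  rw [subOut_lt]
  by_cases h : f a < g a
  · simp only [h, decide_true, cond_true]
    have : f a - g a = 0 := by omega
    rw [this]
    show enc (Nat.bits 0) = _
    rw [Nat.zero_bits]
  · simp only [h, decide_false, cond_false]
    rw [trimRev_eq]
    have he := subOut_eq (f a, g a)
    rw [subOut_lt] at he
    simp only [h, decide_false, Bool.toNat_false, Nat.cast_zero, mul_zero, add_zero] at he
    have : bv (Poly.subOut (f a, g a)).2.reverse = f a - g a := by omega
    rw [this]; rfl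

/-! ### Multiplication -/

theorem foldl_bit (a : ℕ) (m : List Bool) : ∀ v : ℕ,
    m.foldl (fun u x => (u + u) + bif x then a else 0) (a * v) =
      a * m.foldl (fun v x => Nat.bit x v) v := by
  induction m with
  | nil => intro v; rfl
  | cons x m ih =>
    intro v
    rw [List.foldl_cons, List.foldl_cons, ← ih]
    congr 1
    rw [Nat.bit_val]
    cases x <;> simp <;> ring

theorem foldl_bit_mono (m : List Bool) : ∀ v : ℕ, v ≤ m.foldl (fun v x => Nat.bit x v) v := by
  induction m with
  | nil => intro v; exact le_rfl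
  | cons x m ih =>
    intro v
    rw [List.foldl_cons]
    refine le_trans ?_ (ih _)
    rw [Nat.bit_val]; omega

theorem size_mul_le (a b : ℕ) : (a * b).size ≤ a.size + b.size := by
  rw [Nat.size_le, pow_add]
  exact Nat.mul_lt_mul'' (Nat.lt_size_self a) (Nat.lt_size_self b)

theorem PF.mulCore : PF (fun x : ℕ × ℕ =>
    x.2.bits.reverse.foldl (fun u y => (u + u) + bif y then x.1 else 0) 0) := by
  have b2 : PF (fun x : ℕ × ℕ => x.2.bits) := PF.snd.congr (fun _ => rfl)
  have hstep : PF (fun s : ((ℕ × ℕ) × ℕ) × Bool => (s.1.2 + s.1.2) + bif s.2 then s.1.1.1 else 0) :=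
    PF.add (PF.add (PF.snd' PF.fst) (PF.snd' PF.fst))
      (PF.cond PF.snd (PF.fst' (PF.fst' PF.fst)) (PF.const 0))
  obtain ⟨n, p, P, hc⟩ := hstep
  have hstep : PF (fun s : ((ℕ × ℕ) × ℕ) × Bool => (s.1.2 + s.1.2) + bif s.2 then s.1.1.1 else 0) :=
    ⟨n, p, P, hc⟩
  -- use the bounded rule directly
  have hinit : PF (fun x : ℕ × ℕ => (x, 0)) := PF.pair PF.id (PF.const 0)
  have hst' : PF (fun s : ((ℕ × ℕ) × ℕ) × Bool =>
      (s.1.1, (s.1.2 + s.1.2) + bif s.2 then s.1.1.1 else 0)) := PF.pair (PF.fst' PF.fst) hstep
  have key := PF.foldl hinit b2.reverse hst' (2 + Polynomial.X + 4 * Polynomial.X)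
    (fun c l1 l2 hl => by
      have e : ∀ (l : List Bool) (u : ℕ),
          (l.foldl (fun (s : (ℕ × ℕ) × ℕ) y => (s.1, (s.2 + s.2) + bif y then s.1.1 else 0))
            (c, u)) = (c, l.foldl (fun u y => (u + u) + bif y then c.1 else 0) u) := by
        intro l
        induction l with
        | nil => intro u; rfl
        | cons x l ih => intro u; exact ih _
      have e1 := e l1 0
      rw [show (l1.foldl (fun u x => ((u, x).1.1, ((u, x).1.2 + (u, x).1.2) + bif (u, x).2 then
        (u, x).1.1.1 else 0)) (c, 0)) = (c, l1.foldl (fun u y => (u + u) + bif y then c.1 else 0) 0)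
        from e1, sz_pair]
      have h2 := foldl_bit c.1 l1 0
      rw [mul_zero] at h2
      rw [h2]
      have h3 : l1.foldl (fun v x => Nat.bit x v) 0 ≤ c.2 := by
        have h4 : c.2.bits.reverse.foldl (fun v x => Nat.bit x v) 0 = c.2 := by
          rw [bv_reverse_foldl, List.reverse_reverse, bv_bits]; simp
        rw [hl, List.foldl_append] at h4
        calc _ ≤ _ := foldl_bit_mono l2 _
          _ = c.2 := h4
      have h5 : (c.1 * l1.foldl (fun v x => Nat.bit x v) 0).size ≤ c.1.size + c.2.size :=
        le_trans (Nat.size_le_size (Nat.mul_le_mul_left _ h3)) (size_mul_le _ _)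
      have h6 := sz_nat_le (c.1 * l1.foldl (fun v x => Nat.bit x v) 0)
      have h7 := size_le_sz c.1
      have h8 := size_le_sz c.2
      have h9 : sz c = 1 + sz c.1 + sz c.2 := sz_pair c.1 c.2
      simp only [Polynomial.eval_add, Polynomial.eval_mul, Polynomial.eval_ofNat,
        Polynomial.eval_X]
      omega)
  refine (key.snd').congr (fun c => ?_)
  congr 1
  have e : ∀ (l : List Bool) (u : ℕ),
      (l.foldl (fun (s : (ℕ × ℕ) × ℕ) y => (s.1, (s.2 + s.2) + bif y then s.1.1 else 0))
        (c, u)) = (c, l.foldl (fun u y => (u + u) + bif y then c.1 else 0) u) := by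
    intro l
    induction l with
    | nil => intro u; rfl
    | cons x l ih => intro u; exact ih _
  exact (congrArg Prod.snd (e _ 0)).symm

theorem PF.mul {f g : α → ℕ} (hf : PF f) (hg : PF g) : PF (fun a => f a * g a) := by
  refine (PF.mulCore.comp (PF.pair hf hg)).congr (fun a => ?_)
  congr 1
  have h := foldl_bit (f a) (g a).bits.reverse 0
  rw [mul_zero, bv_reverse_foldl, List.reverse_reverse, bv_bits] at h
  rw [h]; simp

end Pool.Agent.Helper52.Poly
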