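import Mathlib
import Pool.Agent.Helper52.Poly.PF
import Pool.Agent.Helper52.Poly.Fold

namespace Pool.Agent.Helper52.Poly

open Function Turing

/-- continuation lists visited while running `p` with continuation `k` -/
def reach : Prog → List Prog → Set (List Prog)
  | .skip, k => {.skip :: k}
  | .push r b, k => {.push r b :: k}
  | .seq p q, k => {.seq p q :: k} ∪ (reach p (q :: k) ∪ reach q k)
  | .pop r p q s, k => {.pop r p q s :: k} ∪ (reach p k ∪ (reach q k ∪ reach s k))
  | .loop r p q, k => {.loop r p q :: k} ∪ (reach p (.loop r p q :: k) ∪ reach q (.loop r p q :: k))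

theorem reach_finite (p : Prog) : ∀ k, (reach p k).Finite := by
  induction p with
  | skip => intro k; exact Set.finite_singleton _
  | push r b => intro k; exact Set.finite_singleton _
  | seq p q hp hq => intro k; exact (Set.finite_singleton _).union ((hp _).union (hq _))
  | pop r p q s hp hq hs =>
    intro k; exact (Set.finite_singleton _).union ((hp _).union ((hq _).union (hs _)))
  | loop r p q hp hq => intro k; exact (Set.finite_singleton _).union ((hp _).union (hq _))

theorem mem_reach (p : Prog) (k : List Prog) : p :: k ∈ reach p k := by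
  cases p <;> simp [reach]

theorem nil_notMem_reach (p : Prog) : ∀ k, [] ∉ reach p k := by
  induction p with
  | skip => intro k; simp [reach]
  | push r b => intro k; simp [reach]
  | seq p q hp hq => intro k; simp [reach, hp, hq]
  | pop r p q s hp hq hs => intro k; simp [reach, hp, hq, hs]
  | loop r p q hp hq => intro k; simp [reach, hp, hq]

section machine

variable (p₀ : Prog) (n : ℕ) (M : FinTM2) (iA : M.Γ M.k₀ ≃ Bool)

/-- stacks of the linked machine -/
abbrev LK : Type := Fin (n + 2) ⊕ M.K
/-- stack alphabets of the linked machine -/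
abbrev LΓ : LK n M → Type := fun k => Sum.elim (fun _ => Bool) M.Γ k
/-- labels of the linked machine -/
abbrev LΛ : Type := {l : List Prog // l ∈ reach p₀ []} ⊕ (Unit ⊕ M.Λ)
/-- internal states of the linked machine -/
abbrev Lσ : Type := Option Bool × M.σ

open Classical in
/-- the label of a continuation list -/
noncomputable def lab (l : List Prog) : LΛ p₀ M :=
  if h : l ∈ reach p₀ [] then .inl ⟨l, h⟩ else .inr (.inl ())

/-- the stack of a register -/
def reg (r : ℕ) : LK n M := .inl (Fin.ofNat (n + 2) r)

/-- reset the bit register -/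
def rst : Lσ M → Lσ M := fun v => (none, v.2)

/-- three way jump after a pop -/
noncomputable def jump3 (a b c : List Prog) : TM2.Stmt (LΓ n M) (LΛ p₀ M) (Lσ M) :=
  .branch (fun v => v.1.isNone) (.goto fun _ => lab p₀ M a)
    (.branch (fun v => v.1 == some true) (.load (rst M) (.goto fun _ => lab p₀ M c))
      (.load (rst M) (.goto fun _ => lab p₀ M b)))

/-- the statement of a continuation list -/
noncomputable def stm : List Prog → TM2.Stmt (LΓ n M) (LΛ p₀ M) (Lσ M)
  | [] => .halt
  | .skip :: k => .goto fun _ => lab p₀ M k
  | .push r b :: k => .push (.inl (Fin.ofNat (n + 2) r)) (fun _ => b) (.goto fun _ => lab p₀ M k)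
  | .seq p q :: k => .goto fun _ => lab p₀ M (p :: q :: k)
  | .pop r p q s :: k => .pop (.inl (Fin.ofNat (n + 2) r)) (fun v o => (o, v.2))
      (jump3 p₀ n M (p :: k) (q :: k) (s :: k))
  | .loop r p q :: k => .pop (.inl (Fin.ofNat (n + 2) r)) (fun v o => (o, v.2))
      (jump3 p₀ n M k (p :: .loop r p q :: k) (q :: .loop r p q :: k))

/-- the transfer statement -/
noncomputable def transfer : TM2.Stmt (LΓ n M) (LΛ p₀ M) (Lσ M) :=
  .pop (.inl (Fin.ofNat (n + 2) 1)) (fun v o => (o, v.2))
    (.branch (fun v => v.1.isSome)
      (.push (.inr M.k₀) (fun v => iA.symm (v.1.getD false))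
        (.load (rst M) (.goto fun _ => .inr (.inl ()))))
      (.goto fun _ => .inr (.inr M.main)))

/-- translation of the statements of `M` -/
def tr : TM2.Stmt M.Γ M.Λ M.σ → TM2.Stmt (LΓ n M) (LΛ p₀ M) (Lσ M)
  | .push k f q => .push (.inr k) (fun v => f v.2) (tr q)
  | .peek k f q => .peek (.inr k) (fun v o => (v.1, f v.2 o)) (tr q)
  | .pop k f q => .pop (.inr k) (fun v o => (v.1, f v.2 o)) (tr q)
  | .load f q => .load (fun v => (v.1, f v.2)) (tr q)
  | .branch f q q' => .branch (fun v => f v.2) (tr q) (tr q')
  | .goto f => .goto fun v => .inr (.inr (f v.2))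
  | .halt => .halt

/-- the linked machine -/
noncomputable def link : FinTM2 :=
  letI := M.kDecidableEq
  letI := M.kFin
  letI := M.ΛFin
  letI := M.σFin
  letI := (reach_finite p₀ []).fintype
  { K := LK n M
    kDecidableEq := inferInstance
    kFin := inferInstance
    k₀ := .inl 0
    k₁ := .inr M.k₁
    Γ := LΓ n M
    Λ := LΛ p₀ M
    main := lab p₀ M [p₀]
    ΛFin := inferInstance
    σ := Lσ M
    initialState := (none, M.initialState)
    σFin := inferInstance
    Γk₀Fin := inferInstanceAs (Fintype Bool)
    m := fun l => match l with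
      | .inl x => stm p₀ n M x.1
      | .inr (.inl _) => transfer p₀ n M iA
      | .inr (.inr x) => tr p₀ n M (M.m x) }

end machine

end Pool.Agent.Helper52.Poly
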