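import Mathlib
import Pool.Agent.Helper52.Poly.TM

namespace Pool.Agent.Helper52.Poly

open Function Turing

/-- reaching a configuration in a given number of steps -/
def Steps (tm : FinTM2) (a : tm.Cfg) (k : ℕ) (b : tm.Cfg) : Prop :=
  (flip bind tm.step)^[k] (some a) = some b

theorem Steps.zero {tm : FinTM2} (a : tm.Cfg) : Steps tm a 0 a := rfl

theorem Steps.one {tm : FinTM2} {a b : tm.Cfg} (h : tm.step a = some b) : Steps tm a 1 b := by
  show flip bind tm.step (some a) = some b
  exact h

theorem Steps.trans {tm : FinTM2} {a b c : tm.Cfg} {k l : ℕ} (h1 : Steps tm a k b)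
    (h2 : Steps tm b l c) : Steps tm a (l + k) c := by
  unfold Steps at *
  rw [Function.iterate_add_apply, h1, h2]

section machine

variable (p₀ : Prog) (n : ℕ) (M : FinTM2) (iA : M.Γ M.k₀ ≃ Bool)

/-- stacks of the linked machine -/
def stk (s : Store) (S : ∀ k, List (M.Γ k)) : ∀ k : LK n M, List (LΓ n M k)
  | .inl i => s i
  | .inr k => S k

theorem stk_update_inl (inst : DecidableEq (LK n M)) (s : Store) (S : ∀ k, List (M.Γ k)) (r : ℕ)
    (hr : r < n + 2) (l : List Bool) :
    @update (LK n M) (fun k => List (LΓ n M k)) inst (stk n M s S) (.inl (Fin.ofNat (n + 2) r)) l =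
      stk n M (update s r l) S := by
  funext k
  rcases k with i | k
  · by_cases h : i = Fin.ofNat (n + 2) r
    · subst h
      rw [update_self]
      have : ((Fin.ofNat (n + 2) r : Fin (n + 2)) : ℕ) = r := Nat.mod_eq_of_lt hr
      show l = update s r l _
      rw [this, update_self]
    · rw [update_of_ne (by simpa using h)]
      show s i = update s r l i
      rw [update_of_ne]
      intro hir
      apply h
      apply Fin.ext
      show (i : ℕ) = r % (n + 2)
      rw [Nat.mod_eq_of_lt hr, hir]
  · rw [update_of_ne (by simp)]; rfl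

theorem stk_update_inr (inst : DecidableEq (LK n M)) (s : Store) (S : ∀ k, List (M.Γ k)) (k : M.K)
    (l : List (M.Γ k)) :
    @update (LK n M) (fun k => List (LΓ n M k)) inst (stk n M s S) (.inr k) l =
      stk n M s (@update M.K _ M.kDecidableEq S k l) := by
  funext k'
  rcases k' with i | k'
  · rw [update_of_ne (by simp)]; rfl
  · by_cases h : k' = k
    · subst h
      rw [update_self]
      show l = @update M.K _ M.kDecidableEq S k' l k'
      rw [update_self]
    · rw [update_of_ne (by simpa using h)]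
      show S k' = @update M.K _ M.kDecidableEq S k l k'
      rw [update_of_ne h]

theorem ofNat_val {r : ℕ} (hr : r < n + 2) : ((Fin.ofNat (n + 2) r : Fin (n + 2)) : ℕ) = r :=
  Nat.mod_eq_of_lt hr

theorem stk_inl (s : Store) (S : ∀ k, List (M.Γ k)) {r : ℕ} (hr : r < n + 2) :
    stk n M s S (.inl (Fin.ofNat (n + 2) r)) = s r := by
  show s _ = s r
  rw [ofNat_val n hr]

/-- raw configurations of the first phase -/
noncomputable def rc (l : List Prog) (s : Store) (S : ∀ k, List (M.Γ k)) :
    TM2.Cfg (LΓ n M) (LΛ p₀ M) (Lσ M) :=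
  ⟨some (lab p₀ M l), (none, M.initialState), stk n M s S⟩

variable (inst : DecidableEq (LK n M)) (s : Store) (S : ∀ k, List (M.Γ k)) (k : List Prog)

theorem aux_push {r : ℕ} (b : Bool) (hr : r < n + 2) :
    @TM2.stepAux _ _ _ _ inst (stm p₀ n M (.push r b :: k)) ((none, M.initialState) : Lσ M)
      (stk n M s S) = rc p₀ n M k (update s r (b :: s r)) S := by
  simp only [stm, TM2.stepAux]
  rw [stk_inl n M s S hr, stk_update_inl n M inst s S r hr]
  rfl

theorem aux_popNil {r : ℕ} {a b c : List Prog} (hr : r < n + 2) (h0 : s r = []) :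
    @TM2.stepAux _ _ _ _ inst (.pop (.inl (Fin.ofNat (n + 2) r)) (fun v o => (o, v.2))
      (jump3 p₀ n M a b c)) ((none, M.initialState) : Lσ M)
      (stk n M s S) = rc p₀ n M a s S := by
  simp only [jump3, TM2.stepAux]
  rw [stk_inl n M s S hr, h0]
  show (⟨some (lab p₀ M a), ((none : Option Bool), M.initialState),
    @update (LK n M) (fun k => List (LΓ n M k)) inst (stk n M s S) (.inl (Fin.ofNat (n + 2) r))
      ([] : List Bool)⟩ : TM2.Cfg (LΓ n M) (LΛ p₀ M) (Lσ M)) = _
  rw [stk_update_inl n M inst s S r hr, ← h0, update_eq_self]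
  rfl

theorem aux_popF {r : ℕ} {a b c : List Prog} {l : List Bool} (hr : r < n + 2)
    (h0 : s r = false :: l) :
    @TM2.stepAux _ _ _ _ inst (.pop (.inl (Fin.ofNat (n + 2) r)) (fun v o => (o, v.2))
      (jump3 p₀ n M a b c)) ((none, M.initialState) : Lσ M)
      (stk n M s S) = rc p₀ n M b (update s r l) S := by
  simp only [jump3, TM2.stepAux]
  rw [stk_inl n M s S hr, h0]
  show (⟨some (lab p₀ M b), ((none : Option Bool), M.initialState),
    @update (LK n M) (fun k => List (LΓ n M k)) inst (stk n M s S) (.inl (Fin.ofNat (n + 2) r))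
      (l : List Bool)⟩ : TM2.Cfg (LΓ n M) (LΛ p₀ M) (Lσ M)) = _
  rw [stk_update_inl n M inst s S r hr]
  rfl

theorem aux_popT {r : ℕ} {a b c : List Prog} {l : List Bool} (hr : r < n + 2)
    (h0 : s r = true :: l) :
    @TM2.stepAux _ _ _ _ inst (.pop (.inl (Fin.ofNat (n + 2) r)) (fun v o => (o, v.2))
      (jump3 p₀ n M a b c)) ((none, M.initialState) : Lσ M)
      (stk n M s S) = rc p₀ n M c (update s r l) S := by
  simp only [jump3, TM2.stepAux]
  rw [stk_inl n M s S hr, h0]
  show (⟨some (lab p₀ M c), ((none : Option Bool), M.initialState),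
    @update (LK n M) (fun k => List (LΓ n M k)) inst (stk n M s S) (.inl (Fin.ofNat (n + 2) r))
      (l : List Bool)⟩ : TM2.Cfg (LΓ n M) (LΛ p₀ M) (Lσ M)) = _
  rw [stk_update_inl n M inst s S r hr]
  rfl

/-- configurations of the first phase -/
noncomputable def cfg (l : List Prog) (s : Store) (S : ∀ k, List (M.Γ k)) :
    (link p₀ n M iA).Cfg := rc p₀ n M l s S

theorem step_cfg (l : List Prog) (h : l ∈ reach p₀ []) (s : Store) (S : ∀ k, List (M.Γ k)) :
    (link p₀ n M iA).step (cfg p₀ n M iA l s S) =
      some (@TM2.stepAux _ _ _ _ (link p₀ n M iA).kDecidableEq (stm p₀ n M l)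
        ((none, M.initialState) : Lσ M) (stk n M s S)) := by
  have hl : lab p₀ M l = .inl ⟨l, h⟩ := by unfold lab; rw [dif_pos h]
  unfold cfg rc
  rw [hl]
  rfl

variable {k}

/-- Simulation of the programs. -/
theorem sim {p : Prog} {s s' : Store} {c : ℕ} (hr : Run p s s' c) :
    ∀ (k : List Prog) (S : ∀ k, List (M.Γ k)), reach p k ⊆ reach p₀ [] → p.bd ≤ n + 2 →
      Steps (link p₀ n M iA) (cfg p₀ n M iA (p :: k) s S) c (cfg p₀ n M iA k s' S) := by
  induction hr with
  | skip s =>
    intro k S hk _
    exact Steps.one (step_cfg p₀ n M iA _ (hk (mem_reach _ _)) s S)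
  | push s r b =>
    intro k S hk hb
    simp only [Prog.bd] at hb
    refine Steps.one ((step_cfg p₀ n M iA _ (hk (mem_reach _ _)) s S).trans ?_)
    exact congrArg some (aux_push p₀ n M _ s S k b (by omega))
  | @seq p q s s' s'' c c' _ _ ih1 ih2 =>
    intro k S hk hb
    simp only [Prog.bd] at hb
    have e0 : Steps (link p₀ n M iA) (cfg p₀ n M iA (.seq p q :: k) s S) 1
        (cfg p₀ n M iA (p :: q :: k) s S) :=
      Steps.one (step_cfg p₀ n M iA _ (hk (mem_reach _ _)) s S)
    have e1 := ih1 (q :: k) S (fun x hx => hk (.inr (.inl hx))) (by omega)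
    have e2 := ih2 k S (fun x hx => hk (.inr (.inr hx))) (by omega)
    have := (e0.trans e1).trans e2
    rwa [show c' + (c + 1) = c + c' + 1 by ring] at this
  | @popNil r p q q' s s' c h0 _ ih =>
    intro k S hk hb
    simp only [Prog.bd] at hb
    have e0 : Steps (link p₀ n M iA) (cfg p₀ n M iA (.pop r p q q' :: k) s S) 1
        (cfg p₀ n M iA (p :: k) s S) :=
      Steps.one ((step_cfg p₀ n M iA _ (hk (mem_reach _ _)) s S).trans
        (congrArg some (aux_popNil p₀ n M _ s S (by omega) h0)))
    exact e0.trans (ih k S (fun x hx => hk (.inr (.inl hx))) (by omega))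
  | @popF r p q q' s s' c l h0 _ ih =>
    intro k S hk hb
    simp only [Prog.bd] at hb
    have e0 : Steps (link p₀ n M iA) (cfg p₀ n M iA (.pop r p q q' :: k) s S) 1
        (cfg p₀ n M iA (q :: k) (update s r l) S) :=
      Steps.one ((step_cfg p₀ n M iA _ (hk (mem_reach _ _)) s S).trans
        (congrArg some (aux_popF p₀ n M _ s S (by omega) h0)))
    exact e0.trans (ih k S (fun x hx => hk (.inr (.inr (.inl hx)))) (by omega))
  | @popT r p q q' s s' c l h0 _ ih =>
    intro k S hk hb
    simp only [Prog.bd] at hb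
    have e0 : Steps (link p₀ n M iA) (cfg p₀ n M iA (.pop r p q q' :: k) s S) 1
        (cfg p₀ n M iA (q' :: k) (update s r l) S) :=
      Steps.one ((step_cfg p₀ n M iA _ (hk (mem_reach _ _)) s S).trans
        (congrArg some (aux_popT p₀ n M _ s S (by omega) h0)))
    exact e0.trans (ih k S (fun x hx => hk (.inr (.inr (.inr hx)))) (by omega))
  | @loopNil r q q' s h0 =>
    intro k S hk hb
    simp only [Prog.bd] at hb
    exact Steps.one ((step_cfg p₀ n M iA _ (hk (mem_reach _ _)) s S).trans
        (congrArg some (aux_popNil p₀ n M _ s S (by omega) h0)))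
  | @loopF r q q' s s' s'' c c' l h0 _ _ ih1 ih2 =>
    intro k S hk hb
    have hb' := hb
    simp only [Prog.bd] at hb
    have e0 : Steps (link p₀ n M iA) (cfg p₀ n M iA (.loop r q q' :: k) s S) 1
        (cfg p₀ n M iA (q :: .loop r q q' :: k) (update s r l) S) :=
      Steps.one ((step_cfg p₀ n M iA _ (hk (mem_reach _ _)) s S).trans
        (congrArg some (aux_popF p₀ n M _ s S (by omega) h0)))
    have e1 := ih1 (.loop r q q' :: k) S (fun x hx => hk (.inr (.inl hx))) (by omega)
    have e2 := ih2 k S hk hb'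
    have := (e0.trans e1).trans e2
    rwa [show c' + (c + 1) = c + c' + 1 by ring] at this
  | @loopT r q q' s s' s'' c c' l h0 _ _ ih1 ih2 =>
    intro k S hk hb
    have hb' := hb
    simp only [Prog.bd] at hb
    have e0 : Steps (link p₀ n M iA) (cfg p₀ n M iA (.loop r q q' :: k) s S) 1
        (cfg p₀ n M iA (q' :: .loop r q q' :: k) (update s r l) S) :=
      Steps.one ((step_cfg p₀ n M iA _ (hk (mem_reach _ _)) s S).trans
        (congrArg some (aux_popT p₀ n M _ s S (by omega) h0)))
    have e1 := ih1 (.loop r q q' :: k) S (fun x hx => hk (.inr (.inr hx))) (by omega)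
    have e2 := ih2 k S hk hb'
    have := (e0.trans e1).trans e2
    rwa [show c' + (c + 1) = c + c' + 1 by ring] at this

end machine

end Pool.Agent.Helper52.Poly
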