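import Mathlib
import Pool.Agent.Helper52.Poly.TMSim

namespace Pool.Agent.Helper52.Poly

open Function Turing

section machine

variable (p₀ : Prog) (n : ℕ) (M : FinTM2) (iA : M.Γ M.k₀ ≃ Bool)

/-- the empty stacks -/
def emp : ∀ k, List (M.Γ k) := fun _ => []

/-- raw configurations of the transfer phase -/
def tc (s : Store) (S : ∀ k, List (M.Γ k)) : TM2.Cfg (LΓ n M) (LΛ p₀ M) (Lσ M) :=
  ⟨some (.inr (.inl ())), (none, M.initialState), stk n M s S⟩

theorem aux_transferNil (inst : DecidableEq (LK n M)) (s : Store) (S : ∀ k, List (M.Γ k))
    (h0 : s 1 = []) :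
    @TM2.stepAux _ _ _ _ inst (transfer p₀ n M iA) ((none, M.initialState) : Lσ M)
      (stk n M s S) = ⟨some (.inr (.inr M.main)), (none, M.initialState), stk n M s S⟩ := by
  simp only [transfer, TM2.stepAux]
  rw [stk_inl n M s S (by omega), h0]
  show (⟨some (.inr (.inr M.main)), ((none : Option Bool), M.initialState),
    @update (LK n M) (fun k => List (LΓ n M k)) inst (stk n M s S) (.inl (Fin.ofNat (n + 2) 1))
      ([] : List Bool)⟩ : TM2.Cfg (LΓ n M) (LΛ p₀ M) (Lσ M)) = _
  rw [stk_update_inl n M inst s S 1 (by omega), ← h0, update_eq_self]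

theorem aux_transferCons (inst : DecidableEq (LK n M)) (s : Store) (S : ∀ k, List (M.Γ k))
    (b : Bool) (l : List Bool) (h0 : s 1 = b :: l) :
    @TM2.stepAux _ _ _ _ inst (transfer p₀ n M iA) ((none, M.initialState) : Lσ M)
      (stk n M s S) = tc p₀ n M (update s 1 l)
        (@update M.K _ M.kDecidableEq S M.k₀ (iA.symm b :: S M.k₀)) := by
  simp only [transfer, TM2.stepAux]
  rw [stk_inl n M s S (by omega), h0]
  show (⟨some (.inr (.inl ())), ((none : Option Bool), M.initialState),
    @update (LK n M) (fun k => List (LΓ n M k)) inst
      (@update (LK n M) (fun k => List (LΓ n M k)) inst (stk n M s S)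
        (.inl (Fin.ofNat (n + 2) 1)) (l : List Bool)) (.inr M.k₀)
        (iA.symm b :: (@update (LK n M) (fun k => List (LΓ n M k)) inst (stk n M s S)
        (.inl (Fin.ofNat (n + 2) 1)) (l : List Bool)) (.inr M.k₀))⟩ :
        TM2.Cfg (LΓ n M) (LΛ p₀ M) (Lσ M)) = _
  rw [stk_update_inl n M inst s S 1 (by omega), stk_update_inr n M inst]
  rfl

theorem sim_transfer : ∀ (l : List Bool) (s : Store) (S : ∀ k, List (M.Γ k)), s 1 = l →
    Steps (link p₀ n M iA) (tc p₀ n M s S) (l.length + 1)
      (⟨some (.inr (.inr M.main)), (none, M.initialState), stk n M (update s 1 [])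
        (@update M.K _ M.kDecidableEq S M.k₀ ((l.map iA.symm).reverse ++ S M.k₀))⟩ :
        TM2.Cfg (LΓ n M) (LΛ p₀ M) (Lσ M)) := by
  intro l
  induction l with
  | nil =>
    intro s S h0
    have e : Steps (link p₀ n M iA) (tc p₀ n M s S) 1
        (⟨some (.inr (.inr M.main)), (none, M.initialState), stk n M s S⟩ :
        TM2.Cfg (LΓ n M) (LΛ p₀ M) (Lσ M)) :=
      Steps.one (congrArg some (aux_transferNil p₀ n M iA _ s S h0))
    have h1 : update s 1 [] = s := by rw [← h0, update_eq_self]
    have h2 : @update M.K _ M.kDecidableEq S M.k₀ ((([] : List Bool).map iA.symm).reverse ++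
        S M.k₀) = S := by
      simp only [List.map_nil, List.reverse_nil, List.nil_append, update_eq_self]
    rw [h1, h2]
    exact e
  | cons b l ih =>
    intro s S h0
    have e : Steps (link p₀ n M iA) (tc p₀ n M s S) 1
        (tc p₀ n M (update s 1 l)
        (@update M.K _ M.kDecidableEq S M.k₀ (iA.symm b :: S M.k₀))) :=
      Steps.one (congrArg some (aux_transferCons p₀ n M iA _ s S b l h0))
    have e2 := ih (update s 1 l) (@update M.K _ M.kDecidableEq S M.k₀ (iA.symm b :: S M.k₀))
      (update_self _ _ _)
    have h1 : update (update s 1 l) 1 [] = update s 1 [] := update_idem _ _ _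
    have h2 : @update M.K _ M.kDecidableEq (@update M.K _ M.kDecidableEq S M.k₀
        (iA.symm b :: S M.k₀)) M.k₀ ((l.map iA.symm).reverse ++
        (@update M.K _ M.kDecidableEq S M.k₀ (iA.symm b :: S M.k₀)) M.k₀) =
        @update M.K _ M.kDecidableEq S M.k₀ (((b :: l).map iA.symm).reverse ++ S M.k₀) := by
      rw [update_idem, update_self]
      congr 1
      simp
    rw [h1, h2] at e2
    exact e.trans e2

/-- embedding of the configurations of `M` -/
def emb (c : M.Cfg) : TM2.Cfg (LΓ n M) (LΛ p₀ M) (Lσ M) :=
  ⟨c.l.map (fun x => .inr (.inr x)), (none, c.var), stk n M (fun _ => []) c.stk⟩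

theorem aux_tr (inst : DecidableEq (LK n M)) (q : TM2.Stmt M.Γ M.Λ M.σ) :
    ∀ (v : M.σ) (S : ∀ k, List (M.Γ k)),
    @TM2.stepAux _ _ _ _ inst (tr p₀ n M q) ((none, v) : Lσ M) (stk n M (fun _ => []) S) =
      emb p₀ n M (@TM2.stepAux _ _ _ _ M.kDecidableEq q v S) := by
  induction q with
  | push k f q ih =>
    intro v S
    simp only [tr, TM2.stepAux]
    rw [stk_update_inr n M inst]
    exact ih v _
  | peek k f q ih =>
    intro v S
    simp only [tr, TM2.stepAux]
    exact ih _ _
  | pop k f q ih =>
    intro v S
    simp only [tr, TM2.stepAux]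
    rw [stk_update_inr n M inst]
    exact ih _ _
  | load f q ih =>
    intro v S
    simp only [tr, TM2.stepAux]
    exact ih _ _
  | branch f q q' ih ih' =>
    intro v S
    simp only [tr, TM2.stepAux]
    cases f v
    · exact ih' v S
    · exact ih v S
  | goto f => intro v S; rfl
  | halt => intro v S; rfl

theorem step_emb {c c' : M.Cfg} (h : M.step c = some c') :
    (link p₀ n M iA).step (emb p₀ n M c) = some (emb p₀ n M c') := by
  obtain ⟨l, v, S⟩ := c
  cases l with
  | none => exact absurd h (by simp [FinTM2.step, TM2.step])
  | some l =>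
    have h1 : @TM2.stepAux _ _ _ _ M.kDecidableEq (M.m l) v S = c' := Option.some.inj h
    rw [← h1]
    exact congrArg some (aux_tr p₀ n M _ (M.m l) v S)

theorem sim_emb {c c' : M.Cfg} : ∀ {k : ℕ}, Steps M c k c' →
    Steps (link p₀ n M iA) (emb p₀ n M c) k (emb p₀ n M c') := by
  intro k
  induction k generalizing c with
  | zero =>
    intro h
    have : c = c' := by
      have h2 : some c = some c' := h
      exact Option.some.inj h2
    subst this; exact Steps.zero _
  | succ k ih =>
    intro h
    unfold Steps at h
    rw [Function.iterate_succ_apply] at h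
    cases hs : M.step c with
    | none =>
      exfalso
      have h1 : flip bind M.step (some c) = none := hs
      rw [h1] at h
      have h2 : ∀ j : ℕ, (flip bind M.step)^[j] (none : Option M.Cfg) = none := by
        intro j
        induction j with
        | zero => rfl
        | succ j ihj => rw [Function.iterate_succ_apply]; exact ihj
      rw [h2] at h
      exact absurd h (by simp)
    | some c1 =>
      have h1 : flip bind M.step (some c) = some c1 := hs
      rw [h1] at h
      have e1 := ih (c := c1) h
      exact (Steps.one (step_emb p₀ n M iA hs)).trans e1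

end machine

variable {α β : Type} [Enc α] [Enc β]

/-- Composition of a polynomial-time function with a polynomial-time Turing machine. -/
theorem PF.link {f : α → β} (hf : PF f) {δ δΓ : Type} (eb : δ → List δΓ) (g : β → δ)
    (hg : Nonempty (TM2ComputableInPolyTime (code : β → List Bool) eb g)) :
    Nonempty (TM2ComputableInPolyTime (code : α → List Bool) eb (fun a => g (f a))) := by
  obtain ⟨G⟩ := hg
  obtain ⟨n, p, P, hc⟩ := hf
  have hsz := hc.size_le
  obtain ⟨b1, b2, b3⟩ := hc
  set M := G.tm with hM
  set iA := G.inputAlphabet with hiA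
  set p₀ : Prog := .seq p (mv 0 1) with hp₀
  refine ⟨{ tm := Poly.link p₀ n M iA
            inputAlphabet := Equiv.refl Bool
            outputAlphabet := G.outputAlphabet
            time := 4 * (Polynomial.X + P) + P + G.time.comp (Polynomial.X + P) + 20
            outputsFun := fun a => ?_ }⟩
  -- the initial configuration
  have key : ∃ k ≤ Polynomial.eval (code a).length (4 * (Polynomial.X + P) + P +
      G.time.comp (Polynomial.X + P) + 20 : Polynomial ℕ),
      Steps (Poly.link p₀ n M iA)
        (initList (Poly.link p₀ n M iA) (List.map (Equiv.refl Bool).invFun (code a))) k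
        (haltList (Poly.link p₀ n M iA) (List.map G.outputAlphabet.invFun (eb (g (f a))))) := by
    have hinit : initList (Poly.link p₀ n M iA) (List.map (Equiv.refl Bool).invFun (code a)) =
        cfg p₀ n M iA [p₀] (update (fun _ => []) 0 (code a)) (emp M) := by
      unfold initList cfg rc
      congr 1
      funext k
      rcases k with i | k
      · by_cases hi : i = 0
        · subst hi
          rw [dif_pos (by rfl)]
          show _ = update (fun _ => []) 0 (code a) 0
          rw [update_self]
          simp [Poly.link]
        · rw [dif_neg (by intro h; exact hi (Sum.inl.inj h))]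
          show [] = update (fun _ => []) 0 (code a) (i : ℕ)
          rw [update_of_ne (by intro h; exact hi (Fin.ext h))]
      · rw [dif_neg (by intro h; exact absurd h (by simp [Poly.link]))]
        rfl
    rw [hinit]
    obtain ⟨c, hcP, hr⟩ := b3 a (update (fun _ => []) 0 (code a)) (update_self _ _ _)
      (fun i i0 _ => by rw [update_of_ne (by omega)])
    rw [update_idem] at hr
    have hr2 : Run (mv 0 1) (update (fun _ => []) 0 (code (f a)))
        (update (fun _ => []) 1 (code (f a)).reverse) (2 * (code (f a)).length + 1) := by
      refine run_mv' (by norm_num) (l := code (f a)) (l' := []) (update_self _ _ _) ?_ ?_ ?_ ?_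
      · rw [update_of_ne (by norm_num)]
      · rw [update_of_ne (by norm_num)]
      · rw [update_self, List.append_nil]
      · intro i i1 i2; rw [update_of_ne i2, update_of_ne i1]
    have hr3 := Run.seq hr hr2
    have e1 := sim p₀ n M iA hr3 [] (emp M) (fun x hx => hx) (by
      simp only [Prog.bd, bd_mv]; omega)
    -- transfer
    have hcfg : cfg p₀ n M iA [] (update (fun _ => []) 1 (code (f a)).reverse) (emp M) =
        tc p₀ n M (update (fun _ => []) 1 (code (f a)).reverse) (emp M) := by
      unfold cfg rc tc lab
      rw [dif_neg (nil_notMem_reach p₀ [])]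
    have e2 := sim_transfer p₀ n M iA (code (f a)).reverse
      (update (fun _ => []) 1 (code (f a)).reverse) (emp M) (update_self _ _ _)
    rw [hcfg] at e1
    -- M phase
    have hout := G.outputsFun (f a)
    have e3 : Steps M (initList M (List.map iA.invFun (code (f a)))) hout.steps
        (haltList M (List.map G.outputAlphabet.invFun (eb (g (f a))))) := hout.evals_in_steps
    have e4 := sim_emb p₀ n M iA e3
    have hmid : (⟨some (.inr (.inr M.main)), (none, M.initialState), stk n M
        (update (update (fun _ => []) 1 (code (f a)).reverse) 1 [])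
        (@update M.K _ M.kDecidableEq (emp M) M.k₀ (((code (f a)).reverse.map iA.symm).reverse ++
          (emp M) M.k₀))⟩ : TM2.Cfg (LΓ n M) (LΛ p₀ M) (Lσ M)) =
        emb p₀ n M (initList M (List.map iA.invFun (code (f a)))) := by
      unfold emb initList
      have h1 : update (update (fun _ => []) 1 (code (f a)).reverse) 1 [] =
          (fun _ => [] : Store) := by
        rw [update_idem]; funext i
        by_cases hi : i = 1
        · subst hi; rw [update_self]
        · rw [update_of_ne hi]
      rw [h1]
      simp only [Option.map_some]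
      congr 2
      funext k
      by_cases hk : k = M.k₀
      · subst hk
        rw [update_self, dif_pos rfl]
        simp only [emp, List.append_nil, List.map_reverse, List.reverse_reverse]
        rfl
      · rw [update_of_ne hk, dif_neg hk]; rfl
    rw [hmid] at e2
    have hfin : emb p₀ n M (haltList M (List.map G.outputAlphabet.invFun (eb (g (f a))))) =
        haltList (Poly.link p₀ n M iA) (List.map G.outputAlphabet.invFun (eb (g (f a)))) := by
      unfold emb haltList
      congr 1
      funext k
      rcases k with i | k
      · rw [dif_neg (by intro h; exact absurd h (by simp [Poly.link]))]; rfl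
      · by_cases hk : k = M.k₁
        · subst hk
          rw [dif_pos (by rfl)]
          show (dite (M.k₁ = M.k₁) _ _ : List (M.Γ M.k₁)) = _
          rw [dif_pos rfl]
          rfl
        · rw [dif_neg (by intro h; exact hk (Sum.inr.inj h))]
          show (dite (k = M.k₁) _ _ : List (M.Γ k)) = _
          rw [dif_neg hk]
          rfl
    rw [hfin] at e4
    refine ⟨_, ?_, (e1.trans e2).trans e4⟩
    have h5 := hout.steps_le_m
    have h6 : (code (f a)).length ≤ (code a).length + P.eval (code a).length := hsz a
    have h7 := pmono G.time h6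
    have hcP' : c ≤ P.eval (code a).length := hcP
    simp only [Polynomial.eval_add, Polynomial.eval_mul, Polynomial.eval_X,
      Polynomial.eval_ofNat, Polynomial.eval_comp, List.length_reverse]
    omega
  exact ⟨⟨key.choose, key.choose_spec.2⟩, key.choose_spec.1⟩

end Pool.Agent.Helper52.Poly
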