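import Mathlib
import Pool.Agent.Helper52.Poly.Arith

namespace Pool.Agent.Helper52.Poly

open Function

variable {α β γ δ σ : Type} [Enc α] [Enc β] [Enc γ] [Enc δ] [Enc σ]

/-- filtering with an environment -/
theorem PF.filterEnv {l : γ → List α} {b : γ × α → Bool} (hl : PF l) (hb : PF b) :
    PF (fun c => (l c).filter (fun x => b (c, x))) := by
  have h1 : PF (fun c => (l c).map (fun x => (c, x))) := PF.map (h := fun y : γ × α => y) hl PF.id
  have h2 := PF.filter h1 hb
  have h3 := PF.map (h := fun y : γ × (γ × α) => y.2.2) h2 (PF.snd' PF.snd)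
  refine h3.congr (fun c => ?_)
  congr 1
  induction l c with
  | nil => rfl
  | cons a t ih =>
    simp only [List.map_cons, List.filter_cons]
    cases b (c, a)
    · simpa using ih
    · simpa using ih

theorem PF.headD {l : γ → List α} {d : γ → α} (hl : PF l) (hd : PF d) :
    PF (fun c => (l c).headD (d c)) := by
  refine (PF.listCase (g := fun y : (α × List α) × γ => y.1.1) hl hd (PF.fst' PF.fst)).congr
    (fun c => ?_)
  cases l c <;> rfl

/-- sizes of lists of vectors -/
theorem sz_vec_le (w : ℕ × ℕ) (k : ℕ) (h1 : w.1 < 2 ^ k) (h2 : w.2 < 2 ^ k) :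
    sz w ≤ 8 * k + 3 := by
  have e : sz w = 1 + sz w.1 + sz w.2 := sz_pair w.1 w.2
  have a1 := sz_nat_le w.1
  have a2 := sz_nat_le w.2
  have b1 := Nat.size_le.2 h1
  have b2 := Nat.size_le.2 h2
  omega

theorem sz_veclist_le (s : List (ℕ × ℕ)) (k : ℕ) (h : ∀ w ∈ s, w.1 < 2 ^ k ∧ w.2 < 2 ^ k) :
    sz s ≤ 1 + s.length * (8 * k + 4) := by
  induction s with
  | nil => simp [sz_nil]
  | cons a s ih =>
    have h1 := h a List.mem_cons_self
    have h2 := sz_vec_le a k h1.1 h1.2
    have h3 := ih (fun w hw => h w (List.mem_cons_of_mem _ hw))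
    rw [sz_cons, List.length_cons, Nat.succ_mul]
    omega

def tot (s : List (ℕ × ℕ)) : ℕ := (s.map Prod.fst).sum + (s.map Prod.snd).sum

theorem tot_cons (a : ℕ × ℕ) (s : List (ℕ × ℕ)) : tot (a :: s) = a.1 + a.2 + tot s := by
  simp only [tot, List.map_cons, List.sum_cons]; omega

theorem tot_append (s t : List (ℕ × ℕ)) : tot (s ++ t) = tot s + tot t := by
  simp only [tot, List.map_append, List.sum_append]; omega

theorem mem_le_tot {s : List (ℕ × ℕ)} {w : ℕ × ℕ} (h : w ∈ s) : w.1 + w.2 ≤ tot s := by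
  induction s with
  | nil => simp at h
  | cons a s ih =>
    rw [tot_cons]
    rcases List.mem_cons.1 h with h | h
    · subst h; omega
    · have := ih h; omega

theorem lt_two_pow_sz (n : ℕ) : n < 2 ^ sz n :=
  lt_of_lt_of_le (Nat.lt_size_self n) (Nat.pow_le_pow_right (by norm_num) (size_le_sz n))

theorem vec_lt (w : ℕ × ℕ) : w.1 + w.2 < 2 ^ sz w := by
  have e : sz w = 1 + sz w.1 + sz w.2 := sz_pair w.1 w.2
  have h1 := lt_two_pow_sz w.1
  have h2 := lt_two_pow_sz w.2
  rw [e]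
  have p1 : 2 ^ sz w.1 ≤ 2 ^ (sz w.1 + sz w.2) := Nat.pow_le_pow_right (by norm_num) (by omega)
  have p2 : 2 ^ sz w.2 ≤ 2 ^ (sz w.1 + sz w.2) := Nat.pow_le_pow_right (by norm_num) (by omega)
  have p3 : 2 ^ (1 + sz w.1 + sz w.2) = 2 * 2 ^ (sz w.1 + sz w.2) := by
    rw [add_assoc, pow_add, pow_one]
  omega

theorem tot_lt (s : List (ℕ × ℕ)) : tot s < 2 ^ sz s := by
  induction s with
  | nil => simp [tot]
  | cons a s ih =>
    rw [tot_cons, sz_cons]
    have h1 := vec_lt a
    have p1 : 2 ^ sz a ≤ 2 ^ (sz a + sz s) := Nat.pow_le_pow_right (by norm_num) (by omega)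
    have p2 : 2 ^ sz s ≤ 2 ^ (sz a + sz s) := Nat.pow_le_pow_right (by norm_num) (by omega)
    have p3 : 2 ^ (1 + sz a + sz s) = 2 * 2 ^ (sz a + sz s) := by
      rw [add_assoc, pow_add, pow_one]
    omega

end Pool.Agent.Helper52.Poly
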