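import Mathlib
import Pool.Agent.Helper52.Poly.Lists2

/-! The bit string coding an element, its length, truncation of strings. -/

namespace Pool.Agent.Helper52.Poly

open Function

variable {α β γ δ σ : Type} [Enc α] [Enc β] [Enc γ] [Enc δ] [Enc σ]

def serLoop : Prog :=
  .loop 1 (.seq (.push 0 false) (.push 0 true))
    (.seq (.seq (.push 0 false) (.push 0 false)) (.seq (.push 0 true) (.push 0 true)))

theorem run_serLoop : ∀ (l : List Bool) (m : List Bool) (s : Store), s 1 = l → s 0 = code m →
    ∃ c ≤ 8 * l.length + 1,
      Run serLoop s (update (update s 1 []) 0 (code (l.reverse ++ m))) c := by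
  intro l
  induction l with
  | nil =>
    intro m s h1 h0
    refine ⟨1, by simp, Run.cast (Run.loopNil h1) ?_ rfl⟩
    funext i
    by_cases i0 : i = 0
    · rw [i0, update_self, h0]; rfl
    · rw [update_of_ne i0]
      by_cases i1 : i = 1
      · rw [i1, update_self, h1]
      · rw [update_of_ne i1]
  | cons x l ih =>
    intro m s h1 h0
    obtain ⟨c, hc, hr⟩ := ih (x :: m) (update (update s 1 l) 0 (code (x :: m)))
      (by rw [update_of_ne (by norm_num), update_self]) (update_self _ _ _)
    have hfin : update (update (update (update s 1 l) 0 (code (x :: m))) 1 []) 0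
        (code (l.reverse ++ (x :: m))) = update (update s 1 []) 0 (code ((x :: l).reverse ++ m)) := by
      have e : l.reverse ++ (x :: m) = (x :: l).reverse ++ m := by simp
      rw [e]
      funext i
      by_cases i0 : i = 0
      · rw [i0, update_self, update_self]
      · rw [update_of_ne i0, update_of_ne i0]
        by_cases i1 : i = 1
        · rw [i1, update_self, update_self]
        · rw [update_of_ne i1, update_of_ne i1, update_of_ne i0, update_of_ne i1]
    rw [hfin] at hr
    cases x with
    | false =>
      have e1 := Run.push (update s 1 l) 0 false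
      have e2 := Run.push (update (update s 1 l) 0 (false :: (update s 1 l) 0)) 0 true
      have e := Run.seq e1 e2
      have hm : update (update (update s 1 l) 0 (false :: (update s 1 l) 0)) 0
          (true :: (update (update s 1 l) 0 (false :: (update s 1 l) 0)) 0) =
          update (update s 1 l) 0 (code (false :: m)) := by
        rw [update_idem, update_self, update_of_ne (by norm_num : (0 : ℕ) ≠ 1), h0]
        rfl
      rw [hm] at e
      exact ⟨_, by rw [List.length_cons]; omega, Run.loopF h1 e hr⟩
    | true =>
      have e1 := Run.push (update s 1 l) 0 false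
      have e2 := Run.push (update (update s 1 l) 0 (false :: (update s 1 l) 0)) 0 false
      have e12 := Run.seq e1 e2
      rw [update_idem, update_self] at e12
      have e3 := Run.push (update (update s 1 l) 0 (false :: false :: (update s 1 l) 0)) 0 true
      rw [update_idem, update_self] at e3
      have e4 := Run.push (update (update s 1 l) 0 (true :: false :: false :: (update s 1 l) 0)) 0
        true
      rw [update_idem, update_self] at e4
      have e := Run.seq e12 (Run.seq e3 e4)
      have hm : update (update s 1 l) 0 (true :: true :: false :: false :: (update s 1 l) 0) =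
          update (update s 1 l) 0 (code (true :: m)) := by
        rw [update_of_ne (by norm_num : (0 : ℕ) ≠ 1), h0]
        rfl
      rw [hm] at e
      exact ⟨_, by rw [List.length_cons]; omega, Run.loopT h1 e hr⟩

/-- The bit string coding an element can be computed (as a list of bits). -/
theorem PF.ser : PF (fun a : α => (code a : List Bool)) := by
  refine ⟨2, .seq (mv 0 1) (.seq (.push 0 false) serLoop), 20 * Polynomial.X + 20, ?_, by norm_num,
    fun a s hs hi => ?_⟩
  · simp [Prog.bd, serLoop, bd_mv]
  · have s1 := hi 1 (by norm_num) (by norm_num)
    have e1 := run_mv (a := 0) (b := 1) (by norm_num) (code a) s hs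
    rw [s1, List.append_nil] at e1
    have e2 := Run.push (update (update s 0 []) 1 (code a).reverse) 0 false
    obtain ⟨c, hc, e3⟩ := run_serLoop (code a).reverse []
      (update (update (update s 0 []) 1 (code a).reverse) 0
        (false :: (update (update s 0 []) 1 (code a).reverse) 0))
      (by rw [update_of_ne (by norm_num), update_self]) (by
        rw [update_self, update_of_ne (by norm_num : (0 : ℕ) ≠ 1), update_self]; rfl)
    have hfin : update (update (update (update (update s 0 []) 1 (code a).reverse) 0
        (false :: (update (update s 0 []) 1 (code a).reverse) 0)) 1 []) 0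
        (code ((code a).reverse.reverse ++ [])) = update s 0 (code (code a)) := by
      rw [List.reverse_reverse, List.append_nil]
      funext i
      by_cases i0 : i = 0
      · rw [i0, update_self, update_self]
      · rw [update_of_ne i0, update_of_ne i0]
        by_cases i1 : i = 1
        · rw [i1, update_self, s1]
        · rw [update_of_ne i1, update_of_ne i0, update_of_ne i1, update_of_ne i0]
    rw [hfin] at e3
    refine ⟨_, ?_, Run.seq e1 (Run.seq e2 e3)⟩
    rw [List.length_reverse] at hc
    simp only [Polynomial.eval_add, Polynomial.eval_mul, Polynomial.eval_X,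
      Polynomial.eval_ofNat, sz]
    omega

theorem PF.lengthCore : PF (fun l : List α => l.length) := by
  have key := PF.foldl (init := fun _ : List α => 0) (lst := fun l => l)
    (step := fun s : ℕ × α => s.1 + 1) (PF.const _) PF.id (PF.add PF.fst (PF.const 1))
    (4 * Polynomial.X + 1) (fun l l1 l2 h => by
      have e : ∀ (m : List α) (n : ℕ), m.foldl (fun u _ => u + 1) n = n + m.length := by
        intro m
        induction m with
        | nil => intro n; rfl
        | cons a m ih => intro n; rw [List.foldl_cons, ih, List.length_cons]; omega
      have h1 := e l1 0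
      rw [zero_add] at h1
      rw [show l1.foldl (fun u x => ((u, x) : ℕ × α).1 + 1) 0 = l1.length from h1]
      have h2 := sz_nat_le l1.length
      have h3 : l1.length.size ≤ l1.length := by
        rw [Nat.size_le]; exact Nat.lt_two_pow_self
      have h4 := length_le_sz l
      have h5 : l.length = l1.length + l2.length := by rw [h, List.length_append]
      simp only [Polynomial.eval_add, Polynomial.eval_mul, Polynomial.eval_X,
        Polynomial.eval_ofNat, Polynomial.eval_one]
      omega)
  refine key.congr (fun l => ?_)
  congr 1
  have e : ∀ (m : List α) (n : ℕ), m.foldl (fun u _ => u + 1) n = n + m.length := by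
    intro m
    induction m with
    | nil => intro n; rfl
    | cons a m ih => intro n; rw [List.foldl_cons, ih, List.length_cons]; omega
  have h1 := e l 0
  rw [zero_add] at h1
  exact h1.symm

theorem PF.length {l : γ → List α} (hl : PF l) : PF (fun c => (l c).length) :=
  PF.lengthCore.comp hl

/-- The length of the code is computable in polynomial time. -/
theorem PF.size {f : γ → α} (hf : PF f) : PF (fun c => sz (f c)) :=
  (PF.length (PF.ser.comp hf)).congr (fun _ => rfl)

theorem PF.evalPoly (p : Polynomial ℕ) {f : γ → ℕ} (hf : PF f) : PF (fun c => p.eval (f c)) := by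
  induction p using Polynomial.induction_on' with
  | add p q hp hq =>
    refine (PF.add hp hq).congr (fun c => ?_)
    rw [Polynomial.eval_add]
  | monomial n a =>
    have h : PF (fun c => f c ^ n) := by
      induction n with
      | zero => exact (PF.const 1).congr (fun c => by rw [pow_zero])
      | succ n ih => exact (PF.mul ih hf).congr (fun c => by rw [pow_succ])
    refine (PF.mul (PF.const a) h).congr (fun c => ?_)
    rw [Polynomial.eval_monomial]

def tstep (s : (ℕ × List α) × α) : ℕ × List α :=
  if s.1.1 = 0 then s.1 else (s.1.1 - 1, s.2 :: s.1.2)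

theorem tstep_foldl : ∀ (l : List α) (n : ℕ) (acc : List α),
    (l.foldl (fun u x => tstep (u, x)) (n, acc)).2.reverse = acc.reverse ++ l.take n := by
  intro l
  induction l with
  | nil => intro n acc; simp
  | cons a l ih =>
    intro n acc
    rw [List.foldl_cons]
    by_cases h : n = 0
    · subst h
      have : tstep ((0, acc), a) = (0, acc) := by simp [tstep]
      rw [this, ih]; simp
    · have : tstep ((n, acc), a) = (n - 1, a :: acc) := by simp [tstep, h]
      rw [this, ih]
      obtain ⟨k, rfl⟩ : ∃ k, n = k + 1 := ⟨n - 1, by omega⟩
      simp

theorem tstep_inv : ∀ (l : List α) (n : ℕ) (acc : List α) (N : ℕ), n ≤ N →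
    (l.foldl (fun u x => tstep (u, x)) (n, acc)).1 ≤ N ∧
    sz (l.foldl (fun u x => tstep (u, x)) (n, acc)).2 ≤ sz acc + sz l := by
  intro l
  induction l with
  | nil => intro n acc N h; exact ⟨h, by simp⟩
  | cons a l ih =>
    intro n acc N hN
    rw [List.foldl_cons]
    by_cases h : n = 0
    · have : tstep ((n, acc), a) = (n, acc) := by simp [tstep, h]
      rw [this, sz_cons]
      have := ih n acc N hN
      exact ⟨this.1, by omega⟩
    · have : tstep ((n, acc), a) = (n - 1, a :: acc) := by simp [tstep, h]
      rw [this]
      have := ih (n - 1) (a :: acc) N (by omega)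
      rw [sz_cons] at this ⊢
      exact ⟨this.1, by omega⟩

theorem PF.takeCore : PF (fun x : ℕ × List α => x.2.take x.1) := by
  have hstep : PF (tstep (α := α)) :=
    PF.ite (PF.eqNat (PF.fst' PF.fst) (PF.const 0)) PF.fst
      (PF.pair (PF.sub (PF.fst' PF.fst) (PF.const 1)) (PF.cons PF.snd (PF.snd' PF.fst)))
  have key := PF.foldl (init := fun x : ℕ × List α => (x.1, ([] : List α)))
    (lst := fun x => x.2) (step := tstep) (PF.pair PF.fst (PF.const [])) PF.snd hstep
    (1 + (4 * Polynomial.X + 1) + (1 + Polynomial.X)) (fun c l1 l2 h => by
      obtain ⟨h1, h2⟩ := tstep_inv l1 c.1 [] c.1 le_rfl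
      set st := l1.foldl (fun u x => tstep (u, x)) (c.1, []) with hst
      have e : sz st = 1 + sz st.1 + sz st.2 := sz_pair st.1 st.2
      have e2 : sz c = 1 + sz c.1 + sz c.2 := sz_pair c.1 c.2
      have e3 := sz_nat_le st.1
      have e4 := Nat.size_le_size h1
      have e5 := size_le_sz c.1
      have e6 : sz l1 ≤ sz c.2 := by
        rw [h]
        clear h hst h1 h2 e e2 e3 e4 e5
        clear_value st
        induction l1 with
        | nil => rw [sz_nil]; exact sz_pos _
        | cons a l1 ih => rw [List.cons_append, sz_cons, sz_cons]; omega
      rw [sz_nil] at h2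
      simp only [Polynomial.eval_add, Polynomial.eval_mul, Polynomial.eval_X,
        Polynomial.eval_ofNat, Polynomial.eval_one]
      omega)
  refine (PF.reverse (PF.snd' key)).congr (fun c => ?_)
  congr 1
  rw [tstep_foldl]; simp

theorem PF.take {n : γ → ℕ} {l : γ → List α} (hn : PF n) (hl : PF l) :
    PF (fun c => (l c).take (n c)) := PF.takeCore.comp (PF.pair hn hl)

end Pool.Agent.Helper52.Poly
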