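import Mathlib
import Pool.Agent.Helper52.Poly.TreeDefs

namespace Pool.Agent.Helper52.Poly

open Turing Computability

open Classical in
/-- The decision problem `L` on `α` is decided by a Turing machine in time polynomial in the
length of the bit string coding the input. -/
def InP {α : Type} [Enc α] (L : α → Prop) : Prop :=
  Nonempty (TM2ComputableInPolyTime (code : α → List Bool) encodeBool (fun a => decide (L a)))

/-- The decision problem `L` on `α` is in NP: there are a polynomial-time verifier `R` and a
polynomial `p` such that the yes-instances `a` are those for which some bit string `w` of length
at most `p (length of the code of a)` is accepted together with `a`. -/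
def InNP {α : Type} [Enc α] (L : α → Prop) : Prop :=
  ∃ (R : α × List Bool → Bool) (p : Polynomial ℕ),
    Nonempty (TM2ComputableInPolyTime (code : α × List Bool → List Bool) encodeBool R) ∧
    ∀ a, L a ↔ ∃ w : List Bool, w.length ≤ p.eval (code a).length ∧ R (a, w) = true

end Pool.Agent.Helper52.Poly
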