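import Mathlib
import Pool.Agent.Helper52.Poly.ClassDefs
import Pool.Agent.Helper52.Poly.Serial
import Pool.Agent.Helper52.Poly.Link

/-! Closure properties of the classes P and NP. -/

namespace Pool.Agent.Helper52.Poly

open Turing Computability

variable {α β : Type} [Enc α] [Enc β]

theorem InP.reduce {L : α → Prop} {L' : β → Prop} {f : α → β} (hf : PF f)
    (h : ∀ a, L a ↔ L' (f a)) (hL : InP L') : InP L := by
  have e : L = fun a => L' (f a) := funext fun a => propext (h a)
  rw [e]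
  exact hf.link encodeBool _ hL

theorem InP.toNP {L : α → Prop} (hL : InP L) : InNP L := by
  refine ⟨_, 0, (PF.fst (α := α) (β := List Bool)).link encodeBool _ hL, fun a => ?_⟩
  · constructor
    · intro h; exact ⟨[], by simp, by simpa using h⟩
    · rintro ⟨w, _, h⟩; simpa using h

/-- NP with a sound verifier. -/
theorem InNP.sound {L : α → Prop} (hL : InNP L) :
    ∃ (R : α × List Bool → Bool) (p : Polynomial ℕ),
      Nonempty (TM2ComputableInPolyTime (code : α × List Bool → List Bool) encodeBool R) ∧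
      (∀ a w, R (a, w) = true → L a) ∧
      (∀ a, L a → ∃ w : List Bool, w.length ≤ p.eval (sz a) ∧ R (a, w) = true) := by
  obtain ⟨R, p, hR, h⟩ := hL
  have hf : PF (fun x : α × List Bool => (x.1, x.2.take (p.eval (sz x.1)))) :=
    PF.pair PF.fst (PF.take (PF.evalPoly p (PF.size PF.fst)) PF.snd)
  refine ⟨fun x => R (x.1, x.2.take (p.eval (sz x.1))), p, hf.link encodeBool R hR, ?_, ?_⟩
  · intro a w hw
    exact (h a).2 ⟨_, List.length_take_le _ _, hw⟩
  · intro a ha
    obtain ⟨w, hw, hr⟩ := (h a).1 ha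
    refine ⟨w, hw, ?_⟩
    have : w.take (p.eval (sz a)) = w := List.take_of_length_le hw
    simp only [this]
    exact hr

theorem InNP.of_sound {L : α → Prop}
    (h : ∃ (R : α × List Bool → Bool) (p : Polynomial ℕ),
      Nonempty (TM2ComputableInPolyTime (code : α × List Bool → List Bool) encodeBool R) ∧
      (∀ a w, R (a, w) = true → L a) ∧
      (∀ a, L a → ∃ w : List Bool, w.length ≤ p.eval (sz a) ∧ R (a, w) = true)) : InNP L := by
  obtain ⟨R, p, hR, h1, h2⟩ := h
  exact ⟨R, p, hR, fun a => ⟨h2 a, fun ⟨w, _, hw⟩ => h1 a w hw⟩⟩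

/-- Nondeterministic polynomial-time reductions. -/
theorem InNP.nreduce {L : α → Prop} {L' : β → Prop} {f : α × List Bool → β × List Bool}
    (hf : PF f) (h1 : ∀ a w, L' (f (a, w)).1 → L a) (p q : Polynomial ℕ)
    (h2 : ∀ a, L a → ∃ (w1 : List Bool) (b : β), w1.length ≤ p.eval (sz a) ∧ L' b ∧
      sz b ≤ q.eval (sz a) ∧ ∀ w2, f (a, w1 ++ w2) = (b, w2)) (hL : InNP L') : InNP L := by
  obtain ⟨R, r, hR, k1, k2⟩ := hL.sound
  refine InNP.of_sound ⟨fun x => R (f x), p + r.comp q, hf.link encodeBool R hR, ?_, ?_⟩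
  · intro a w hw
    exact h1 a w (k1 (f (a, w)).1 (f (a, w)).2 hw)
  · intro a ha
    obtain ⟨w1, b, hw1, hb, hsz, hfw⟩ := h2 a ha
    obtain ⟨w2, hw2, hr⟩ := k2 b hb
    refine ⟨w1 ++ w2, ?_, by simp only [hfw]; exact hr⟩
    rw [List.length_append, Polynomial.eval_add, Polynomial.eval_comp]
    have := pmono r hsz
    omega

theorem InNP.reduce {L : α → Prop} {L' : β → Prop} {f : α → β} (hf : PF f)
    (h : ∀ a, L a ↔ L' (f a)) (hL : InNP L') : InNP L := by
  obtain ⟨q, hq⟩ := hf.size_le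
  exact InNP.nreduce (f := fun x : α × List Bool => (f x.1, x.2))
    (PF.pair (hf.comp PF.fst) PF.snd) (fun a w hw => (h a).2 hw) 0 q
    (fun a ha => ⟨[], f a, by simp, (h a).1 ha, hq a, fun w2 => by simp⟩) hL

end Pool.Agent.Helper52.Poly
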